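import Pool.Agent.R937.CS.Gal
import Pool.Agent.Y137.SF.Main

/-!
# Tate classes on the products of a curve with elliptic curves and abelian surfaces: the theorem
-/

set_option autoImplicit false
set_option linter.unusedSectionVars false
set_option linter.unusedVariables false

namespace Pool.Agent.R937.CS

open NumberField Pool.Agent.H204R3.CM Pool.Agent.W547.KB Pool.Agent.W547.LD Pool.Agent.W495.TA Module
  Pool.Agent.W495.TB Pool.Agent.W495.TC Pool.Agent.TH117.F5 Pool.Agent.TH117.BL Pool.Agent.Y137.SF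
open scoped TensorProduct

noncomputable section

variable {p : ℕ} [Fact p.Prime] {ν : PadicAlgCl p ≃+* ℂ}

section

variable {Ω : Type} [Field Ω] [CharZero Ω]
  {L : Type} [Field L] [NumberField L] [IsCMField L] [IsGalois ℚ L] {j : L →+* ℂ} (jO : L →+* Ω)
  {Y : RedAV p ν}

/-- The basis vectors of the weights of the factors in `J` are in their part of the Tate module. -/
theorem e_mem_part (e : Basis (Wt Y.X L) Ω (TM Ω Y)) [Finite (Wt Y.X L)]
    (h1 : ∀ w, co jO w (e w) = 1) (h2 : ∀ w w', w ≠ w' → co jO w (e w') = 0) (J : Set Y.X.I)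
    (w : Wt Y.X L) (hw : w.1 ∈ J) : e w ∈ part Ω Y J := by
  classical
  let pr : Y.X.H1 →ₗ[ℚ] Y.X.H1 :=
    { toFun := fun x i => if i = w.1 then x i else 0
      map_add' := by
        intro x y
        funext i
        by_cases h : i = w.1
        · change (if i = w.1 then (x + y) i else 0) = (if i = w.1 then x i else 0) +
            (if i = w.1 then y i else 0)
          rw [if_pos h, if_pos h, if_pos h]
          rfl
        · change (if i = w.1 then (x + y) i else 0) = (if i = w.1 then x i else 0) +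
            (if i = w.1 then y i else 0)
          rw [if_neg h, if_neg h, if_neg h, add_zero]
      map_smul' := by
        intro a x
        funext i
        by_cases h : i = w.1
        · change (if i = w.1 then (a • x) i else 0) = a • (if i = w.1 then x i else 0)
          rw [if_pos h, if_pos h]
          rfl
        · change (if i = w.1 then (a • x) i else 0) = a • (if i = w.1 then x i else 0)
          rw [if_neg h, if_neg h, smul_zero] }
  have hco : ∀ (w' : Wt Y.X L) (v : TM Ω Y), co jO w' (pr.baseChange Ω v) =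
      if w'.1 = w.1 then co jO w' v else 0 := by
    intro w' v
    induction v using TensorProduct.induction_on with
    | zero =>
      rw [map_zero, map_zero, ite_self]
    | tmul a x =>
      rw [LinearMap.baseChange_tmul, co_tmul, co_tmul]
      change a * jO (w'.2 (if w'.1 = w.1 then x w'.1 else 0)) = _
      by_cases h : w'.1 = w.1
      · rw [if_pos h, if_pos h]
      · rw [if_neg h, if_neg h, map_zero, map_zero, mul_zero]
    | add x y hx hy =>
      rw [map_add, map_add, hx, hy, map_add]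
      by_cases h : w'.1 = w.1
      · rw [if_pos h, if_pos h, if_pos h]
      · rw [if_neg h, if_neg h, if_neg h, add_zero]
  have h3 : pr.baseChange Ω (e w) = e w := by
    refine ext_co jO e h1 h2 _ _ fun w' => ?_
    rw [hco]
    by_cases h : w'.1 = w.1
    · rw [if_pos h]
    · rw [if_neg h, h2 w' w (fun h' => h (by rw [h']))]
  have h4 : ∀ v : TM Ω Y, pr.baseChange Ω v ∈ part Ω Y J := by
    intro v
    induction v using TensorProduct.induction_on with
    | zero =>
      rw [map_zero]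
      exact Submodule.zero_mem _
    | tmul a x =>
      rw [LinearMap.baseChange_tmul]
      have h5 : a ⊗ₜ[ℚ] pr x = a • ((1 : Ω) ⊗ₜ[ℚ] pr x) := by
        rw [TensorProduct.smul_tmul', smul_eq_mul, mul_one]
      rw [h5]
      refine Submodule.smul_mem _ _ (Submodule.subset_span ⟨pr x, fun i hi => ?_, rfl⟩)
      exact if_neg (fun h => hi (by rw [h]; exact hw))
    | add x y hx hy =>
      rw [map_add]
      exact Submodule.add_mem _ hx hy
  rw [← h3]
  exact h4 _

/-- From half systems with stabilizers of index at most four to monomials. -/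
theorem alg_of_half (W : Set ℕ) (hYj : Big Y.X j) (m : ℕ) (I : Fin (2 * m) → Wt Y.X L)
    (hbal : ∀ g, ∑ k, tf p ν j (St j (I k)) g = 0) (S : Fin (2 * m) → Set (L ≃ₐ[ℚ] L))
    (hS : ∀ k, IsHalf (S k)) (hidx : ∀ k, (stab (S k)).index ≤ 4)
    (htf : ∀ k, tf p ν j (S k) = tf p ν j (St j (I k))) :
    AlgS Ω W Y (Fin (2 * m)) (monoO jO I) := by
  classical
  have h1 := genD_small (p := p) (ν := ν) W j jO S hS hidx Finset.univ (fun σ => by
    rw [← hbal σ]
    exact Finset.sum_congr rfl fun k _ => by rw [htf])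
  rw [← dcnt_eq_sum] at h1
  have key : AlgMS W p ν j jO (Fin (2 * m)) fun k => tf p ν j (S k) := by
    refine @of_genD _ _ (RR p ν j) (closedS W j jO) ?_ (Fin (2 * m)) _
      (fun k => tf p ν j (S k)) (fun k => ⟨S k, hS k, rfl⟩)
      (by rw [Nat.card_eq_fintype_card, Fintype.card_fin]; exact even_two_mul m) h1
    rintro f ⟨S, hS, rfl⟩
    exact cancelS W j jO S hS
  exact key Y hYj I fun k => (htf k).symm

theorem rst_neg {G : Type} [Group G] (f : G → ℤ) : rst (fun g => -f g) = rst f := by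
  ext h
  rw [mem_rst, mem_rst]
  constructor
  · intro h1 g
    have := h1 g
    omega
  · intro h1 g
    rw [h1]

/-- The half system of the special weight. -/
theorem exists_half (hYj : Big Y.X j) (hkp : BigA (kp p) j) (J : Set Y.X.I)
    (hdeg : ∀ i, i ∉ J → finrank ℚ (Y.X.factor i).E ≤ 4)
    (hex : ∀ i k, i ∉ J → k ∉ J → IsMixed Y i → IsMixed Y k →
      Nonempty (maximalRealSubfield (Y.X.factor i).E ≃+* maximalRealSubfield (Y.X.factor k).E) →
      IntermediateField.normalClosure ℚ (Y.X.factor i).E ℂ =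
        IntermediateField.normalClosure ℚ (Y.X.factor k).E ℂ)
    (m : ℕ) (I : Fin (2 * m) → Wt Y.X L) (hbal : ∀ g, ∑ k, tf p ν j (St j (I k)) g = 0)
    (k0 : Fin (2 * m)) (hk0 : ∀ k, k ≠ k0 → (I k).1 ∉ J) :
    ∃ S : Set (L ≃ₐ[ℚ] L), IsHalf S ∧ (stab S).index ≤ 4 ∧
      tf p ν j S = tf p ν j (St j (I k0)) := by
  classical
  let κ' : Type := {k : Fin (2 * m) // k ≠ k0}
  let f : κ' → (L ≃ₐ[ℚ] L) → ℤ := fun k => sg (St j (I k.1))
  have hhalf : ∀ w : Wt Y.X L, IsHalf (St j w) := fun w => isHalf_St (X := Y.X) j w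
  have hf : ∀ k, IsSign (cc L) (f k) := fun k => isSign_sg (hhalf _)
  have hidx0 : ∀ w : Wt Y.X L, w.1 ∉ J → (stab (St j w)).index ≤ 4 := fun w hw =>
    (index_hs_le j (Y.X.factor w.1) (hYj w.1) w.2).trans (hdeg w.1 hw)
  have hidx : ∀ k, (rst (f k)).index ≤ 4 := by
    intro k
    change (rst (sg (St j (I k.1)))).index ≤ 4
    rw [rst_sg]
    exact hidx0 _ (hk0 k.1 k.2)
  have hsum : ∀ g, ∑ k, av (Dec p ν j) (f k) g = -tf p ν j (St j (I k0)) g := by
    intro g
    have h1 := hbal g
    rw [← Finset.add_sum_erase Finset.univ _ (Finset.mem_univ k0)] at h1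
    have h2 : ∑ k ∈ Finset.univ.erase k0, tf p ν j (St j (I k)) g =
        ∑ k : κ', av (Dec p ν j) (f k) g := by
      rw [← Finset.sum_coe_sort (Finset.univ.erase k0)]
      refine Fintype.sum_equiv (Equiv.subtypeEquivRight fun k => ?_) _ _ fun k => ?_
      · rw [Finset.mem_erase]
        exact ⟨fun h => h.1, fun h => ⟨h, Finset.mem_univ _⟩⟩
      · rw [tf_eq_av]
        rfl
    rw [h2] at h1
    omega
  have hB : ∀ g, |∑ k, av (Dec p ν j) (f k) g| ≤ nD (Dec p ν j) := by
    intro g
    rw [hsum, abs_neg, tf_eq_av]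
    exact abs_av_le (Dec p ν j) (cc L) (isSign_sg (hhalf _)) g
  have hcomm : ∀ g : L ≃ₐ[ℚ] L, cc L * g = g * cc L := fun g => cc_comm j g
  have hH : ∀ k k', IsMix (Dec p ν j) (f k) → IsMix (Dec p ν j) (f k') →
      VV (Dec p ν j) (cc L) (f k) = VV (Dec p ν j) (cc L) (f k') →
      (rst (f k)).normalCore = (rst (f k')).normalCore := by
    intro k k' hk hk' hV
    have e1 := stab_eq_of_mix (p := p) (ν := ν) j (Y.X.factor (I k.1).1) (hYj _)
      (hdeg _ (hk0 k.1 k.2)) (I k.1).2 hk
    have e2 := stab_eq_of_mix (p := p) (ν := ν) j (Y.X.factor (I k'.1).1) (hYj _)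
      (hdeg _ (hk0 k'.1 k'.2)) (I k'.1).2 hk'
    have e1' : rst (f k) = MulAction.stabilizer (L ≃ₐ[ℚ] L) (I k.1).2 := by
      rw [← e1]
      exact rst_sg _
    have e2' : rst (f k') = MulAction.stabilizer (L ≃ₐ[ℚ] L) (I k'.1).2 := by
      rw [← e2]
      exact rst_sg _
    have m1 := (VV_mix (Dec p ν j) (cc L) hcomm cc_cc (hf k) (hidx k) hk).2
    have m2 := (VV_mix (Dec p ν j) (cc L) hcomm cc_cc (hf k') (hidx k') hk').2
    rw [e1'] at m1
    rw [e2'] at m2
    have h3 := nonempty_equiv j (Y.X.factor (I k.1).1) (Y.X.factor (I k'.1).1) (hYj _) (hYj _)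
      (I k.1).2 (I k'.1).2 (fun x => by rw [← m1, ← m2, hV])
    have h4 := hex _ _ (hk0 k.1 k.2) (hk0 k'.1 k'.2)
      (isMixed_of_isMix j Y hYj (I k.1) hk) (isMixed_of_isMix j Y hYj (I k'.1) hk') h3
    rw [e1', e2']
    exact core_eq_of_closure j _ _ (hYj _) (hYj _) _ _ h4
  by_cases hne : ∃ g, ∑ k, av (Dec p ν j) (f k) g ≠ 0
  · obtain ⟨f', hf', hidx', hav⟩ := exists_sign_function (Dec p ν j) (cc L) f hcomm cc_cc hf hidx hB
      hH hne
    let S : Set (L ≃ₐ[ℚ] L) := {σ | f' σ = -1}
    have hsg : sg S = fun σ => -f' σ := by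
      funext σ
      unfold sg
      rcases hf'.sign σ with h | h
      · have h1 : σ ∉ S := fun h2 => by
          have h3 : f' σ = -1 := h2
          omega
        rw [if_neg h1, h]
      · have h1 : σ ∈ S := h
        rw [if_pos h1, h, neg_neg]
    refine ⟨S, ?_, ?_, ?_⟩
    · intro σ
      change f' σ = -1 ↔ ¬ f' (cc L * σ) = -1
      have h1 : f' (cc L * σ) = -f' σ := hf'.odd σ
      rw [h1]
      rcases hf'.sign σ with h | h <;> rw [h] <;> norm_num
    · rw [← rst_sg, hsg, rst_neg]
      exact hidx'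
    · funext g
      rw [tf_eq_av, hsg]
      have h1 := hav g
      rw [hsum] at h1
      have h2 : av (Dec p ν j) (fun σ => -f' σ) g = -av (Dec p ν j) f' g := by
        unfold av
        rw [← Finset.sum_neg_distrib]
        refine Finset.sum_congr rfl fun d _ => ?_
        by_cases hd : d ∈ Dec p ν j
        · rw [if_pos hd, if_pos hd]
        · rw [if_neg hd, if_neg hd, neg_zero]
      rw [h2, h1, neg_neg]
  · push Not at hne
    obtain ⟨ψ⟩ : Nonempty ((kp p).E →+* ℂ) := inferInstance
    obtain ⟨φ0, -⟩ := hkp ψ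
    refine ⟨hs (kp p) j φ0, isHalf_hs (kp p) j φ0, ?_, ?_⟩
    · refine (index_hs_le j (kp p) hkp φ0).trans ?_
      rw [finrank_kp]
      norm_num
    · funext g
      have h1 := hne g
      rw [hsum] at h1
      have h2 : tf p ν j (hs (kp p) j φ0) = 0 := by
        rw [tf_hs]
        exact nn_kp (p := p) (ν := ν) (j := j) φ0
      rw [h2]
      change 0 = _
      omega

end

/-- **The theorem.** -/
theorem main (Y : RedAV p ν) (J : Set Y.X.I)
    (hdeg : ∀ i, i ∉ J → finrank ℚ (Y.X.factor i).E ≤ 4)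
    (hex : ∀ i k, i ∉ J → k ∉ J → IsMixed Y i → IsMixed Y k →
      Nonempty (maximalRealSubfield (Y.X.factor i).E ≃+* maximalRealSubfield (Y.X.factor k).E) →
      IntermediateField.normalClosure ℚ (Y.X.factor i).E ℂ =
        IntermediateField.normalClosure ℚ (Y.X.factor k).E ℂ)
    (Ω : Type) [Field Ω] [IsAlgClosed Ω] [CharZero Ω] (W : Set ℕ) (s m : ℕ) (hs0 : 0 < s)
    (f : (TM Ω Y) [⋀^Fin (2 * m)]→ₗ[Ω] Ω) (hf : IsTateClass Ω Y s m f)
    (hlin : IsAtMostLinear Y J f) : AlgS Ω W Y (Fin (2 * m)) f := by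
  classical
  have hne : Nonempty (Y.X.prod (Pool.Agent.W547.KB.single (kp p))).I := ⟨Sum.inr ()⟩
  obtain ⟨L, _, _, _, _, j, hj⟩ := exists_cm (Y.X.prod (Pool.Agent.W547.KB.single (kp p)))
  have hYj : Big Y.X j := fun i ψ => hj (Sum.inl i) ψ
  have hkp : BigA (kp p) j := fun ψ => hj (Sum.inr ()) ψ
  let jO : L →+* Ω := ((IsAlgClosed.lift : L →ₐ[ℚ] Ω) : L →+* Ω)
  obtain ⟨e, h1, h2⟩ := Pool.Agent.W67.TA.basis p ν Ω L j jO Y hYj
  haveI : Module.Finite ℚ Y.X.H1 := Module.Finite.pi
  haveI : Finite (Wt Y.X L) := Module.Finite.finite_basis e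
  refine expandS jO Y e h1 h2 _ f fun I hI => ?_
  have hbal := balanced jO Pool.Agent.W366.TA.val hYj e h1 h2 s m hs0 f hf I hI
  have hidx0 : ∀ w : Wt Y.X L, w.1 ∉ J → (stab (St j w)).index ≤ 4 := fun w hw =>
    (index_hs_le j (Y.X.factor w.1) (hYj w.1) w.2).trans (hdeg w.1 hw)
  have hhalf : ∀ w : Wt Y.X L, IsHalf (St j w) := fun w => isHalf_St (X := Y.X) j w
  by_cases hJ : ∃ k0, (I k0).1 ∈ J
  · obtain ⟨k0, hk0⟩ := hJ
    have hrest : ∀ k, k ≠ k0 → (I k).1 ∉ J := by
      intro k hk hkJ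
      exact hI (hlin _ k k0 hk (e_mem_part jO e h1 h2 J _ hkJ) (e_mem_part jO e h1 h2 J _ hk0))
    obtain ⟨S0, hS0, hidxS, htfS⟩ := exists_half hYj hkp J hdeg hex m I hbal k0 hrest
    refine alg_of_half jO W hYj m I hbal (fun k => if k = k0 then S0 else St j (I k)) ?_ ?_ ?_
    · intro k
      by_cases h : k = k0
      · rw [if_pos h]
        exact hS0
      · rw [if_neg h]
        exact hhalf _
    · intro k
      by_cases h : k = k0
      · rw [if_pos h]
        exact hidxS
      · rw [if_neg h]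
        exact hidx0 _ (hrest k h)
    · intro k
      by_cases h : k = k0
      · rw [if_pos h, h]
        exact htfS
      · rw [if_neg h]
  · push Not at hJ
    exact alg_of_half jO W hYj m I hbal (fun k => St j (I k)) (fun k => hhalf _)
      (fun k => hidx0 _ (hJ k)) fun k => rfl

end

end Pool.Agent.R937.CS
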