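import Pool.Agent.Y137.SF.Defs

/-!
# Tate classes on the products of a curve with elliptic curves and abelian surfaces: definitions
-/

set_option autoImplicit false

namespace Pool.Agent.R937.CS

open Pool.Agent.W495.TA
open scoped TensorProduct

noncomputable section

variable {p : ℕ} [Fact p.Prime] {ν : PadicAlgCl p ≃+* ℂ}

/-- The part of the Tate module of `Y` that belongs to the factors with an index in `J`. -/
def part (Ω : Type) [Field Ω] [CharZero Ω] (Y : RedAV p ν) (J : Set Y.X.I) :
    Submodule Ω (TM Ω Y) :=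
  Submodule.span Ω {v | ∃ x : Y.X.H1, (∀ i, i ∉ J → x i = 0) ∧ v = (1 : Ω) ⊗ₜ[ℚ] x}

/-- The alternating form `f` on the Tate module is of degree at most one in the variables that belong
to the factors with an index in `J`: it vanishes if two of its arguments are in their part. -/
def IsAtMostLinear {Ω : Type} [Field Ω] [CharZero Ω] (Y : RedAV p ν) (J : Set Y.X.I) {κ : Type}
    (f : (TM Ω Y) [⋀^κ]→ₗ[Ω] Ω) : Prop :=
  ∀ (v : κ → TM Ω Y) (k l : κ), k ≠ l → v k ∈ part Ω Y J → v l ∈ part Ω Y J → f v = 0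

/-- Some, but not all, of the slopes of the Frobenius endomorphism of the factor with the index `i` are
equal to one half. If the factor is an abelian surface then its `p`-rank is one. -/
def IsMixed (Y : RedAV p ν) (i : Y.X.I) : Prop :=
  (∃ ψ : (Y.X.factor i).E →+* ℂ,
    ‖ν.symm (ψ (Y.π i))‖ ^ 2 = ‖(p : PadicAlgCl p) ^ Y.a‖) ∧
  ∃ ψ : (Y.X.factor i).E →+* ℂ,
    ‖ν.symm (ψ (Y.π i))‖ ^ 2 ≠ ‖(p : PadicAlgCl p) ^ Y.a‖

end

end Pool.Agent.R937.CS
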