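import Pool.Agent.R937.CS.Single
import Pool.Agent.R937.CS.Defs
import Pool.Agent.Y137.SF.Three

/-!
# Galois groups and CM fields
-/

set_option autoImplicit false
set_option linter.unusedSectionVars false
set_option linter.unusedVariables false

namespace Pool.Agent.R937.CS

open NumberField Pool.Agent.H204R3.CM Pool.Agent.W547.KB Pool.Agent.W547.LD Pool.Agent.W495.TA Module
  Pool.Agent.W495.TB Pool.Agent.W495.TC Pool.Agent.TH117.F5 Pool.Agent.TH117.BL Pool.Agent.Y137.SF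
open scoped TensorProduct

noncomputable section

variable {p : ℕ} [Fact p.Prime] {ν : PadicAlgCl p ≃+* ℂ}
  {L : Type} [Field L] [NumberField L] [IsCMField L] [IsGalois ℚ L] (j : L →+* ℂ)

theorem tf_eq_av (S : Set (L ≃ₐ[ℚ] L)) : tf p ν j S = av (Dec p ν j) (sg S) := by
  classical
  funext σ
  unfold tf av sg
  rfl

theorem nD_eq : nD (Dec p ν j) = (Nat.card (Dec p ν j) : ℤ) := by
  classical
  unfold nD
  rw [Finset.sum_boole, Nat.card_eq_fintype_card, Fintype.card_subtype]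

/-- The stabilizer of an embedding is contained in the stabilizer of its half system. -/
theorem stabilizer_le (A : CMPair) (φ : A.E →+* L) :
    MulAction.stabilizer (L ≃ₐ[ℚ] L) φ ≤ stab (hs A j φ) := by
  intro τ hτ
  rw [mem_stab, Pool.Agent.W417.TA.tr_hs', MulAction.mem_stabilizer_iff.1 hτ]

theorem index_stabilizer_le (A : CMPair) (hA : BigA A j) (φ : A.E →+* L) :
    (MulAction.stabilizer (L ≃ₐ[ℚ] L) φ).index ≤ finrank ℚ A.E := by
  classical
  have := finite_emb j A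
  have := Fintype.ofFinite (A.E →+* L)
  rw [MulAction.index_stabilizer, ← card_emb hA, ← Nat.card_eq_fintype_card]
  exact (Set.ncard_le_card _)

theorem mem_real_iff (A : CMPair) (hA : BigA A j) (φ : A.E →+* L) (x : A.E) :
    x ∈ maximalRealSubfield A.E ↔ cc L (φ x) = φ x := by
  rw [mem_maximalRealSubfield_iff]
  constructor
  · intro h
    apply j.injective
    rw [emb_cc]
    exact h (j.comp φ)
  · intro h ψ
    obtain ⟨φ', rfl⟩ := hA ψ
    obtain ⟨σ, rfl⟩ := (setting j A).trans φ φ'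
    have h1 : cc L ((σ • φ) x) = (σ • φ) x := by
      change cc L (σ (φ x)) = σ (φ x)
      have h2 := congrArg (fun g : L ≃ₐ[ℚ] L => g (φ x)) (cc_comm j σ)
      change cc L (σ (φ x)) = σ (cc L (φ x)) at h2
      rw [h2, h]
    change star (j ((σ • φ) x)) = j ((σ • φ) x)
    conv_rhs => rw [← h1, emb_cc]
    rfl

/-- If the function of a factor of dimension at most two takes the value zero and another value then
the stabilizer of the half system is the stabilizer of the embedding. -/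
theorem stab_eq_of_mix (A : CMPair) (hA : BigA A j) (hdeg : finrank ℚ A.E ≤ 4) (φ : A.E →+* L)
    (hmix : IsMix (Dec p ν j) (sg (hs A j φ))) :
    stab (hs A j φ) = MulAction.stabilizer (L ≃ₐ[ℚ] L) φ := by
  classical
  have hsg := isSign_sg (isHalf_hs A j φ)
  have hidx : (rst (sg (hs A j φ))).index ≤ 4 := by
    rw [rst_sg]
    exact (index_hs_le j A hA φ).trans hdeg
  obtain ⟨h1, h2⟩ := VV_mix (Dec p ν j) (cc L) (fun g => cc_comm j g) cc_cc hsg hidx hmix
  have hle : rst (sg (hs A j φ)) ≤ VV (Dec p ν j) (cc L) (sg (hs A j φ)) := fun x hx =>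
    (h2 x).2 (Or.inl hx)
  have h3 := Subgroup.relIndex_mul_index hle
  have h4 : (rst (sg (hs A j φ))).relIndex (VV (Dec p ν j) (cc L) (sg (hs A j φ))) ≠ 1 := by
    rw [ne_eq, Subgroup.relIndex_eq_one]
    intro h
    refine c_notMem (cc L) hsg (h ((h2 _).2 (Or.inr ?_)))
    rw [cc_cc]
    exact (rst _).one_mem
  have h5 : (rst (sg (hs A j φ))).relIndex (VV (Dec p ν j) (cc L) (sg (hs A j φ))) ≠ 0 := fun h => by
    rw [h, zero_mul] at h3
    exact Subgroup.index_ne_zero_of_finite h3.symm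
  rw [h1] at h3
  have h6 : 4 ≤ (rst (sg (hs A j φ))).index := by omega
  rw [rst_sg] at h6
  have h7 := Subgroup.relIndex_mul_index (stabilizer_le j A φ)
  have h8 := (index_stabilizer_le j A hA φ).trans hdeg
  have h9 : (MulAction.stabilizer (L ≃ₐ[ℚ] L) φ).relIndex (stab (hs A j φ)) ≠ 0 := fun h => by
    rw [h, zero_mul] at h7
    exact Subgroup.index_ne_zero_of_finite h7.symm
  have h10 : (MulAction.stabilizer (L ≃ₐ[ℚ] L) φ).relIndex (stab (hs A j φ)) = 1 := by
    by_contra h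
    have h11 : 2 ≤ (MulAction.stabilizer (L ≃ₐ[ℚ] L) φ).relIndex (stab (hs A j φ)) := by omega
    have h12 : 2 * 4 ≤ (MulAction.stabilizer (L ≃ₐ[ℚ] L) φ).relIndex (stab (hs A j φ)) *
      (stab (hs A j φ)).index := Nat.mul_le_mul h11 h6
    omega
  exact le_antisymm (Subgroup.relIndex_eq_one.1 h10) (stabilizer_le j A φ)

/-- The image of the real subfield. -/
theorem exists_real (A : CMPair) (hA : BigA A j) (φ : A.E →+* L) (x : L)
    (h : ∀ σ ∈ MulAction.stabilizer (L ≃ₐ[ℚ] L) φ, σ x = x) (hc : cc L x = x) :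
    ∃ y ∈ maximalRealSubfield A.E, φ y = x := by
  let φ' : A.E →ₐ[ℚ] L := RingHom.equivRatAlgHom A.E L φ
  have h1 : x ∈ φ'.fieldRange := by
    rw [← IsGalois.fixedField_fixingSubgroup φ'.fieldRange, IntermediateField.mem_fixedField_iff]
    intro σ hσ
    refine h σ ?_
    rw [MulAction.mem_stabilizer_iff]
    ext y
    exact (IntermediateField.mem_fixingSubgroup_iff _ σ).1 hσ _ ⟨y, rfl⟩
  obtain ⟨y, rfl⟩ := h1
  exact ⟨y, (mem_real_iff j A hA φ y).2 hc, rfl⟩

/-- Fields with the same image of the real subfields. -/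
theorem nonempty_equiv (A B : CMPair) (hA : BigA A j) (hB : BigA B j) (φ : A.E →+* L)
    (ψ : B.E →+* L)
    (h : ∀ x : L ≃ₐ[ℚ] L, (x ∈ MulAction.stabilizer (L ≃ₐ[ℚ] L) φ ∨
        cc L * x ∈ MulAction.stabilizer (L ≃ₐ[ℚ] L) φ) ↔
      (x ∈ MulAction.stabilizer (L ≃ₐ[ℚ] L) ψ ∨ cc L * x ∈ MulAction.stabilizer (L ≃ₐ[ℚ] L) ψ)) :
    Nonempty (maximalRealSubfield A.E ≃+* maximalRealSubfield B.E) := by
  -- the image of one is contained in the image of the other
  have key : ∀ (A B : CMPair) (hA : BigA A j) (hB : BigA B j) (φ : A.E →+* L) (ψ : B.E →+* L)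
      (h : ∀ x : L ≃ₐ[ℚ] L, (x ∈ MulAction.stabilizer (L ≃ₐ[ℚ] L) ψ ∨
        cc L * x ∈ MulAction.stabilizer (L ≃ₐ[ℚ] L) ψ) →
      (x ∈ MulAction.stabilizer (L ≃ₐ[ℚ] L) φ ∨ cc L * x ∈ MulAction.stabilizer (L ≃ₐ[ℚ] L) φ))
      (x : A.E), x ∈ maximalRealSubfield A.E → ∃ y ∈ maximalRealSubfield B.E, ψ y = φ x := by
    intro A B hA hB φ ψ h x hx
    have hcx := (mem_real_iff j A hA φ x).1 hx
    refine exists_real j B hB ψ (φ x) (fun σ hσ => ?_) hcx
    rcases h σ (Or.inl hσ) with h1 | h1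
    · exact RingHom.congr_fun (MulAction.mem_stabilizer_iff.1 h1) x
    · have h2 : cc L (σ (φ x)) = φ x := RingHom.congr_fun (MulAction.mem_stabilizer_iff.1 h1) x
      have h3 : cc L (cc L (σ (φ x))) = σ (φ x) := by
        have := congrArg (fun g : L ≃ₐ[ℚ] L => g (σ (φ x))) (cc_cc (L := L))
        exact this
      rw [← h3, h2, hcx]
  have hAB := key A B hA hB φ ψ fun x => (h x).2
  have hBA := key B A hB hA ψ φ fun x => (h x).1
  let f : maximalRealSubfield A.E →+* L := φ.comp (maximalRealSubfield A.E).subtype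
  let g : maximalRealSubfield B.E →+* L := ψ.comp (maximalRealSubfield B.E).subtype
  have hfg : f.fieldRange = g.fieldRange := by
    ext x
    constructor
    · rintro ⟨⟨y, hy⟩, rfl⟩
      obtain ⟨z, hz, hz'⟩ := hAB y hy
      exact ⟨⟨z, hz⟩, hz'⟩
    · rintro ⟨⟨y, hy⟩, rfl⟩
      obtain ⟨z, hz, hz'⟩ := hBA y hy
      exact ⟨⟨z, hz⟩, hz'⟩
  have e1 : maximalRealSubfield A.E ≃+* f.fieldRange :=
    RingEquiv.ofBijective f.rangeRestrictField
      ⟨f.rangeRestrictField.injective, fun ⟨x, y, hy⟩ => ⟨y, Subtype.ext hy⟩⟩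
  have e2 : maximalRealSubfield B.E ≃+* g.fieldRange :=
    RingEquiv.ofBijective g.rangeRestrictField
      ⟨g.rangeRestrictField.injective, fun ⟨x, y, hy⟩ => ⟨y, Subtype.ext hy⟩⟩
  have e3 : f.fieldRange ≃+* g.fieldRange := RingEquiv.subfieldCongr hfg
  exact ⟨(e1.trans e3).trans e2.symm⟩

include j in
/-- The core of the stabilizer of an embedding. -/
theorem mem_core_iff (A : CMPair) (φ : A.E →+* L) (σ : L ≃ₐ[ℚ] L) :
    σ ∈ (MulAction.stabilizer (L ≃ₐ[ℚ] L) φ).normalCore ↔ ∀ φ' : A.E →+* L, σ • φ' = φ' := by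
  constructor
  · intro h φ'
    obtain ⟨τ, rfl⟩ := (setting j A).trans φ φ'
    have h1 := MulAction.mem_stabilizer_iff.1 (h τ⁻¹)
    rw [inv_inv, mul_smul, mul_smul, inv_smul_eq_iff] at h1
    exact h1
  · intro h τ
    rw [MulAction.mem_stabilizer_iff, mul_smul, mul_smul, h, smul_inv_smul]

/-- Automorphisms that fix the normal closures. -/
theorem fix_of_closure (A B : CMPair) (hA : BigA A j) (hB : BigA B j)
    (h : IntermediateField.normalClosure ℚ B.E ℂ ≤ IntermediateField.normalClosure ℚ A.E ℂ)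
    (σ : L ≃ₐ[ℚ] L) (hσ : ∀ φ' : A.E →+* L, σ • φ' = φ') (ψ : B.E →+* L) : σ • ψ = ψ := by
  let j' : L →ₐ[ℚ] ℂ := RingHom.equivRatAlgHom L ℂ j
  let U : IntermediateField ℚ L := IntermediateField.fixedField (Subgroup.zpowers σ)
  have hU : ∀ x, x ∈ U ↔ σ x = x := by
    intro x
    rw [IntermediateField.mem_fixedField_iff]
    constructor
    · intro h
      exact h σ (Subgroup.mem_zpowers σ)
    · intro h τ hτ
      have h1 : Subgroup.zpowers σ ≤ MulAction.stabilizer (L ≃ₐ[ℚ] L) x := by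
        rw [Subgroup.zpowers_le, MulAction.mem_stabilizer_iff]
        exact h
      exact MulAction.mem_stabilizer_iff.1 (h1 hτ)
  have h1 : IntermediateField.normalClosure ℚ A.E ℂ ≤ U.map j' := by
    unfold IntermediateField.normalClosure
    refine iSup_le fun ψ' => ?_
    rintro _ ⟨x, rfl⟩
    obtain ⟨φ', hφ'⟩ := hA (ψ' : A.E →+* ℂ)
    refine ⟨φ' x, (hU _).2 (RingHom.congr_fun (hσ φ') x), ?_⟩
    exact RingHom.congr_fun hφ' x
  ext y
  let ψ' : B.E →ₐ[ℚ] ℂ := RingHom.equivRatAlgHom B.E ℂ (j.comp ψ)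
  have h2 : ψ' y ∈ IntermediateField.normalClosure ℚ B.E ℂ := by
    have h3 : ψ'.fieldRange ≤ IntermediateField.normalClosure ℚ B.E ℂ :=
      AlgHom.fieldRange_le_normalClosure ψ'
    exact h3 ⟨y, rfl⟩
  obtain ⟨z, hz, hz'⟩ := h1 (h h2)
  have h3 : z = ψ y := j.injective hz'
  rw [← h3]
  have h4 := (hU z).1 hz
  change σ (ψ y) = z
  rw [← h3, h4]

theorem core_eq_of_closure (A B : CMPair) (hA : BigA A j) (hB : BigA B j) (φ : A.E →+* L)
    (ψ : B.E →+* L)
    (h : IntermediateField.normalClosure ℚ A.E ℂ = IntermediateField.normalClosure ℚ B.E ℂ) :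
    (MulAction.stabilizer (L ≃ₐ[ℚ] L) φ).normalCore =
      (MulAction.stabilizer (L ≃ₐ[ℚ] L) ψ).normalCore := by
  ext σ
  rw [mem_core_iff j, mem_core_iff j]
  constructor
  · intro h1 ψ'
    exact fix_of_closure j A B hA hB h.ge σ h1 ψ'
  · intro h1 φ'
    exact fix_of_closure j B A hB hA h.le σ h1 φ'

/-- Mixed functions and slopes. -/
theorem isMixed_of_isMix (Y : RedAV p ν) (hY : Big Y.X j) (w : Wt Y.X L)
    (hmix : IsMix (Dec p ν j) (sg (St j w))) : IsMixed Y w.1 := by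
  obtain ⟨i, φ⟩ := w
  have hcard : (0 : ℤ) < Nat.card (Dec p ν j) := by
    exact_mod_cast (Nat.card_pos : 0 < Nat.card (Dec p ν j))
  have hcard0 : Nat.card (Dec p ν j) ≠ 0 := Nat.card_pos.ne'
  have h8 : ∀ σ : L ≃ₐ[ℚ] L, ‖ν.symm (j (σ (φ (Y.π i))))‖ ^ (2 * (Nat.card (Dec p ν j) : ℤ)) =
      ‖(p : PadicAlgCl p)‖ ^ ((Y.a : ℤ) * ((Nat.card (Dec p ν j) : ℤ) +
        tf p ν j (hs (Y.X.factor i) j φ) σ)) := fun σ =>
    val_conj Pool.Agent.W366.TA.val (Y.X.factor i) (hY _) Y.a (Y.π i) (Y.frob i) φ σ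
  have hav : ∀ σ, av (Dec p ν j) (sg (St j (⟨i, φ⟩ : Wt Y.X L))) σ =
      tf p ν j (hs (Y.X.factor i) j φ) σ := by
    intro σ
    rw [tf_eq_av]
    rfl
  have key : ∀ σ : L ≃ₐ[ℚ] L, ‖ν.symm (j (σ (φ (Y.π i))))‖ ^ 2 = ‖(p : PadicAlgCl p) ^ Y.a‖ ↔
      tf p ν j (hs (Y.X.factor i) j φ) σ = 0 := by
    intro σ
    have h1 := h8 σ
    rw [zpow_mul, zpow_ofNat] at h1
    constructor
    · intro h
      rw [h, norm_pow, ← zpow_natCast, ← zpow_mul] at h1
      have h2 := zpow_inj h1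
      have ha : (Y.a : ℤ) ≠ 0 := by exact_mod_cast Y.pos.ne'
      have h3 := mul_left_cancel₀ ha h2
      omega
    · intro h
      rw [h, add_zero, zpow_mul, zpow_natCast, zpow_natCast, zpow_natCast] at h1
      rw [norm_pow]
      exact (pow_left_inj₀ (by positivity) (by positivity) hcard0).1 h1
  obtain ⟨⟨g0, hg0⟩, g1, hg1⟩ := hmix
  rw [hav] at hg0 hg1
  exact ⟨⟨j.comp (g0 • φ), (key g0).2 hg0⟩, ⟨j.comp (g1 • φ), fun h => hg1 ((key g1).1 h)⟩⟩

end

end Pool.Agent.R937.CS
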