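import Pool.Agent.R937.CS.Defs

/-!
# Products with elliptic curves and abelian surfaces
-/

set_option autoImplicit false

namespace Pool.Agent.R937.CS

open Pool.Agent.W547.KB Pool.Agent.W495.TA

variable {p : ℕ} [Fact p.Prime] {ν : PadicAlgCl p ≃+* ℂ}

/-- The CM fields of `A` and `B` have the same Galois closure over `ℚ` (in the field of complex
numbers). -/
def SameClosure (A B : CMPair) : Prop :=
  IntermediateField.normalClosure ℚ A.E ℂ = IntermediateField.normalClosure ℚ B.E ℂ

/-- The maximal totally real subfields of the CM fields of `A` and `B` are isomorphic. -/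
def SameReal (A B : CMPair) : Prop :=
  Nonempty (NumberField.maximalRealSubfield A.E ≃+* NumberField.maximalRealSubfield B.E)

/-- The factors of `Y` with an index outside of `J` are elliptic curves or abelian surfaces, and any two
of them that are abelian surfaces of `p`-rank one and whose endomorphism fields have isomorphic real
quadratic subfields have endomorphism fields with the same Galois closure. -/
def CurvesAndSurfacesOutside (Y : RedAV p ν) (J : Set Y.X.I) : Prop :=
  (∀ i, i ∉ J → Module.finrank ℚ (Y.X.factor i).E ≤ 4) ∧
    ∀ i k, i ∉ J → k ∉ J → IsMixed Y i → IsMixed Y k → SameReal (Y.X.factor i) (Y.X.factor k) →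
      SameClosure (Y.X.factor i) (Y.X.factor k)

end Pool.Agent.R937.CS
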