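import Pool.Agent.R937.CS.Mono

/-!
# A bounded sum of functions of half systems with stabilizers of index at most four
-/

set_option autoImplicit false
set_option linter.unusedSectionVars false
set_option linter.unusedVariables false

namespace Pool.Agent.R937.CS

open Pool.Agent.W495.TA Pool.Agent.W495.TC Pool.Agent.TH117.BL Pool.Agent.Y137.SF

noncomputable section

/-- A lower bound for the relative index. -/
theorem four_le_relIndex {G : Type} [Group G] [Finite G] (N K : Subgroup G) (v : Fin 4 → G)
    (hvK : ∀ i, v i ∈ K) (hv : ∀ i k, i < k → (v i)⁻¹ * v k ∉ N) : 4 ≤ N.relIndex K := by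
  classical
  let w : Fin 4 → K ⧸ N.subgroupOf K := fun i => ((⟨v i, hvK i⟩ : K) : K ⧸ N.subgroupOf K)
  have hw : Function.Injective w := by
    intro i k h
    rcases lt_trichotomy i k with h1 | h1 | h1
    · exact absurd (Subgroup.mem_subgroupOf.1 (QuotientGroup.eq.1 h)) (hv i k h1)
    · exact h1
    · exact absurd (Subgroup.mem_subgroupOf.1 (QuotientGroup.eq.1 h.symm)) (hv k i h1)
  have h1 := Nat.card_le_card_of_injective w hw
  rw [Nat.card_eq_fintype_card (α := Fin 4), Fintype.card_fin] at h1
  exact h1

section mixed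

variable {G : Type} [Group G] [Fintype G] (D : Subgroup G) (c : G)

/-- The function takes the value zero and a value different from zero. -/
def IsMix (f : G → ℤ) : Prop := (∃ g, av D f g = 0) ∧ ∃ g, av D f g ≠ 0

/-- The subgroup generated by `D`, `c` and the core of the stabilizer. -/
def VV (f : G → ℤ) : Subgroup G := D ⊔ Subgroup.zpowers c ⊔ (rst f).normalCore

variable (hcomm : ∀ g, c * g = g * c) (hc2 : c * c = 1)

include hcomm hc2

/-- The elements of a subgroup and their products with `c`. -/
def adj (H : Subgroup G) : Subgroup G where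
  carrier := {v | v ∈ H ∨ c * v ∈ H}
  one_mem' := Or.inl H.one_mem
  mul_mem' := by
    rintro a b (ha | ha) (hb | hb)
    · exact Or.inl (H.mul_mem ha hb)
    · right
      have : c * (a * b) = a * (c * b) := by rw [← mul_assoc, hcomm a, mul_assoc]
      rw [this]
      exact H.mul_mem ha hb
    · right
      rw [← mul_assoc]
      exact H.mul_mem ha hb
    · left
      have : a * b = (c * a) * (c * b) := by
        rw [hcomm a, mul_assoc, ← mul_assoc c c b, hc2, one_mul]
      rw [this]
      exact H.mul_mem ha hb
  inv_mem' := by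
    rintro a (ha | ha)
    · exact Or.inl (H.inv_mem ha)
    · right
      have h1 := H.inv_mem ha
      rw [mul_inv_rev, inv_eq_of_mul_eq_one_left hc2, ← hcomm] at h1
      exact h1

theorem mem_adj (H : Subgroup G) (x : G) : x ∈ adj c hcomm hc2 H ↔ x ∈ H ∨ c * x ∈ H := Iff.rfl

/-- The subgroup `VV` for a mixed function. -/
theorem VV_mix {f : G → ℤ} (hf : IsSign c f) (hidx : (rst f).index ≤ 4) (hmix : IsMix D f) :
    (VV D c f).index = 2 ∧ ∀ x, x ∈ VV D c f ↔ x ∈ rst f ∨ c * x ∈ rst f := by
  classical
  obtain ⟨⟨g0, hg0⟩, g1, hg1⟩ := hmix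
  have hcH : c ∉ rst f := c_notMem c hf
  have hfc : ∀ x, f (c * x) = -f x := fun x => hf.odd x
  let A := adj c hcomm hc2 (rst f)
  have hHA : rst f ≤ A := fun x hx => Or.inl hx
  have hcA : c ∈ A := Or.inr (by rw [hc2]; exact (rst f).one_mem)
  have hA : ∀ g, ∀ x ∈ A, av D f (g * x) = av D f g ∨ av D f (g * x) = -av D f g := by
    rintro g x (hx | hx)
    · exact Or.inl (av_right D hx g)
    · right
      have h1 := av_right D hx g
      have h2 : g * (c * x) = c * (g * x) := by rw [← mul_assoc, ← hcomm, mul_assoc]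
      rw [h2, av_c D c hcomm hf] at h1
      omega
  have h01 : g0⁻¹ * g1 ∉ A := by
    intro h
    have h1 := hA g0 _ h
    rw [mul_inv_cancel_left, hg0, neg_zero, or_self] at h1
    exact hg1 h1
  -- the index of `A` is two
  have hA2 : A.index = 2 := by
    have h1 := Subgroup.relIndex_mul_index hHA
    have h2 : A.index ≠ 1 := by
      rw [ne_eq, Subgroup.index_eq_one]
      intro h
      exact h01 (by rw [h]; exact Subgroup.mem_top _)
    have h3 : (rst f).relIndex A ≠ 1 := by
      rw [ne_eq, Subgroup.relIndex_eq_one]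
      intro h
      exact hcH (h hcA)
    have h4 : A.index ≠ 0 := Subgroup.index_ne_zero_of_finite
    have h5 : (rst f).relIndex A ≠ 0 := fun h => by
      rw [h, zero_mul] at h1
      exact Subgroup.index_ne_zero_of_finite h1.symm
    have a1 : 2 ≤ A.index := by omega
    have a2 : 2 ≤ (rst f).relIndex A := by omega
    have a3 : (rst f).relIndex A * A.index ≤ 4 := by
      rw [h1]
      exact hidx
    nlinarith
  have hmul : ∀ a b : G, a * b ∈ A ↔ (a ∈ A ↔ b ∈ A) := fun a b =>
    Subgroup.mul_mem_iff_of_index_two hA2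
  have hDA : D ≤ A := by
    intro d hd
    by_contra hdA
    have h1 : g0⁻¹ * (d * g1) ∈ A := by
      rw [hmul, inv_mem_iff, hmul]
      rw [hmul, inv_mem_iff] at h01
      by_cases a1 : g0 ∈ A
      · by_cases a2 : g1 ∈ A
        · exact absurd ⟨fun _ => a2, fun _ => a1⟩ h01
        · exact ⟨fun _ => ⟨fun h => absurd h hdA, fun h => absurd h a2⟩, fun _ => a1⟩
      · by_cases a2 : g1 ∈ A
        · exact ⟨fun h => absurd h a1, fun h => absurd (h.2 a2) hdA⟩
        · exact absurd ⟨fun h => absurd h a1, fun h => absurd h a2⟩ h01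
    have h2 := hA g0 _ h1
    rw [mul_inv_cancel_left, av_left D f hd, hg0, neg_zero, or_self] at h2
    exact hg1 h2
  have hle : VV D c f ≤ A := by
    refine sup_le (sup_le hDA ?_) ((Subgroup.normalCore_le _).trans hHA)
    rw [Subgroup.zpowers_le]
    exact hcA
  -- elements
  obtain ⟨d, hd, hdg⟩ : ∃ d ∈ D, f (d * g0) ≠ f g0 := by
    by_contra hcon
    push Not at hcon
    have h3 : av D f g0 = f g0 * nD D := by
      unfold av nD
      rw [Finset.mul_sum]
      refine Finset.sum_congr rfl fun d _ => ?_
      by_cases hd : d ∈ D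
      · rw [if_pos hd, if_pos hd, hcon d hd, mul_one]
      · rw [if_neg hd, if_neg hd, mul_zero]
    have h4 := nD_pos D
    rw [h3] at hg0
    rcases mul_eq_zero.1 hg0 with h5 | h5
    · rcases hf.sign g0 with h6 | h6 <;> omega
    · omega
  have hN : ∀ n ∈ (rst f).normalCore, ∀ g, av D f (n * g) = av D f g := by
    intro n hn g
    have h1 : n * g = g * (g⁻¹ * n * g) := by group
    have h2 : g⁻¹ * n * g ∈ (rst f).normalCore := by
      have := (Subgroup.normalCore_normal (rst f)).conj_mem n hn g⁻¹
      rwa [inv_inv] at this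
    rw [h1, av_right D (Subgroup.normalCore_le _ h2)]
  have hdN : d ∉ (rst f).normalCore := by
    intro h
    apply hdg
    have h1 : d * g0 = g0 * (g0⁻¹ * d * g0) := by group
    have h2 : g0⁻¹ * d * g0 ∈ (rst f).normalCore := by
      have := (Subgroup.normalCore_normal (rst f)).conj_mem d h g0⁻¹
      rwa [inv_inv] at this
    rw [h1, Subgroup.normalCore_le _ h2]
  have hcN : c ∉ (rst f).normalCore := fun h => hcH (Subgroup.normalCore_le _ h)
  have hcdN : ∀ x ∈ D, c * x ∉ (rst f).normalCore := by
    intro x hx h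
    have h1 := hN _ h g1
    rw [mul_assoc, av_c D c hcomm hf, av_left D f hx] at h1
    omega
  have hdcN : ∀ x ∈ D, x * c ∉ (rst f).normalCore := by
    intro x hx h
    rw [← hcomm] at h
    exact hcdN x hx h
  have h4 : 4 ≤ (rst f).normalCore.relIndex (VV D c f) := by
    have hDV : D ≤ VV D c f := le_sup_left.trans le_sup_left
    have hcV : c ∈ VV D c f := by
      have h1 : Subgroup.zpowers c ≤ VV D c f := le_sup_right.trans le_sup_left
      exact h1 (Subgroup.mem_zpowers c)
    refine four_le_relIndex _ _ ![1, d, c, c * d] ?_ ?_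
    · intro i
      fin_cases i
      · exact (VV D c f).one_mem
      · exact hDV hd
      · exact hcV
      · exact (VV D c f).mul_mem hcV (hDV hd)
    · intro i k hik
      fin_cases i <;> fin_cases k <;> first
        | exact absurd hik (by decide)
        | skip
      · change (1 : G)⁻¹ * d ∉ _
        rwa [inv_one, one_mul]
      · change (1 : G)⁻¹ * c ∉ _
        rwa [inv_one, one_mul]
      · change (1 : G)⁻¹ * (c * d) ∉ _
        rw [inv_one, one_mul]
        exact hcdN d hd
      · change d⁻¹ * c ∉ _
        exact hdcN _ (D.inv_mem hd)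
      · change d⁻¹ * (c * d) ∉ _
        rwa [hcomm, inv_mul_cancel_left]
      · change c⁻¹ * (c * d) ∉ _
        rwa [inv_mul_cancel_left]
  have hN8 := index_core_le c hcomm hc2 f hf hidx
  have hNV : (rst f).normalCore ≤ VV D c f := le_sup_right
  have h5 := Subgroup.relIndex_mul_index hNV
  have h6 : (VV D c f).index ≤ 2 := by
    by_contra h
    push Not at h
    have h7 : 4 * 3 ≤ (rst f).normalCore.relIndex (VV D c f) * (VV D c f).index :=
      Nat.mul_le_mul h4 h
    omega
  have h7 := Subgroup.relIndex_mul_index hle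
  have h8 : (VV D c f).index ≠ 0 := Subgroup.index_ne_zero_of_finite
  rw [hA2] at h7
  have h9 : (VV D c f).relIndex A = 1 := by
    have : (VV D c f).relIndex A ≠ 0 := fun h => by
      rw [h, zero_mul] at h7
      exact h8 h7.symm
    omega
  have h10 : A ≤ VV D c f := Subgroup.relIndex_eq_one.1 h9
  refine ⟨by rw [← h7, h9], fun x => ?_⟩
  constructor
  · intro hx
    exact hle hx
  · intro hx
    exact h10 hx

end mixed

section family

variable {G : Type} [Group G] [Fintype G] (D : Subgroup G) (c : G)
  {κ : Type} (f : κ → G → ℤ)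

open Classical in
/-- The sum of the functions of the members of `s` that are invariant under `N`. -/
def yy (N : Subgroup G) (s : Finset κ) : G → ℤ :=
  fun g => ∑ k ∈ s with N ≤ rst (f k), av D (f k) g

variable (hcomm : ∀ g, c * g = g * c) (hc2 : c * c = 1)

include hcomm hc2

variable (hf : ∀ k, IsSign c (f k)) (hidx : ∀ k, (rst (f k)).index ≤ 4)

include hf hidx

open Classical in
/-- The sum over the cosets of a normal subgroup. -/
theorem sum_coset (N : Subgroup G) [N.Normal] (s : Finset κ) (g : G) :
    ∑ n : G, (if n ∈ N then ∑ k ∈ s, av D (f k) (g * n) else 0) = nD N * yy D f N s g := by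
  have h2 : ∀ k, ¬ N ≤ rst (f k) →
      ∑ n : G, (if n ∈ N then av D (f k) (g * n) else 0) = 0 := by
    intro k hk
    have h3 : ∀ n : G, (if n ∈ N then av D (f k) (g * n) else 0) =
        ∑ d : G, (if d ∈ D then (if n ∈ N then f k (d * g * n) else 0) else 0) := by
      intro n
      unfold av
      by_cases hn : n ∈ N
      · simp only [if_pos hn, mul_assoc]
      · simp only [if_neg hn, ite_self, Finset.sum_const_zero]
    rw [Finset.sum_congr rfl fun n _ => h3 n, Finset.sum_comm]
    refine Finset.sum_eq_zero fun d _ => ?_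
    by_cases hd : d ∈ D
    · simp only [if_pos hd]
      exact sep c hcomm hc2 (f k) (hf k) (hidx k) N hk (d * g)
    · simp only [if_neg hd, Finset.sum_const_zero]
  have h3 : ∀ k, N ≤ rst (f k) → ∑ n : G, (if n ∈ N then av D (f k) (g * n) else 0) =
      nD N * av D (f k) g := by
    intro k hk
    unfold nD
    rw [Finset.sum_mul]
    refine Finset.sum_congr rfl fun n _ => ?_
    by_cases hn : n ∈ N
    · rw [if_pos hn, if_pos hn, one_mul, av_right D (hk hn)]
    · rw [if_neg hn, if_neg hn, zero_mul]
  have h5 : ∀ n : G, (if n ∈ N then ∑ k ∈ s, av D (f k) (g * n) else 0) =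
      ∑ k ∈ s, (if n ∈ N then av D (f k) (g * n) else 0) := by
    intro n
    by_cases hn : n ∈ N
    · simp only [if_pos hn]
    · simp only [if_neg hn, Finset.sum_const_zero]
  rw [Finset.sum_congr rfl fun n _ => h5 n, Finset.sum_comm]
  unfold yy
  rw [Finset.mul_sum, Finset.sum_filter]
  refine Finset.sum_congr rfl fun k _ => ?_
  by_cases hk : N ≤ rst (f k)
  · rw [if_pos hk, h3 k hk]
  · rw [if_neg hk, h2 k hk]

/-- If all the partial sums vanish the sum vanishes. -/
theorem sum_eq_zero_of (s : Finset κ) (h : ∀ k ∈ s, ∀ g, yy D f (rst (f k)).normalCore s g = 0)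
    (g : G) : ∑ k ∈ s, av D (f k) g = 0 := by
  classical
  revert g
  induction s using Finset.strongInduction with
  | H s ih =>
    intro g
    rcases s.eq_empty_or_nonempty with rfl | ⟨k0, hk0⟩
    · rw [Finset.sum_empty]
    · let N : Subgroup G := (rst (f k0)).normalCore
      have hsub : (s.filter fun k => ¬ N ≤ rst (f k)) ⊂ s := by
        refine Finset.ssubset_iff_subset_ne.2 ⟨Finset.filter_subset _ _, fun h => ?_⟩
        have h1 : k0 ∈ s.filter fun k => ¬ N ≤ rst (f k) := by
          rw [h]
          exact hk0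
        exact (Finset.mem_filter.1 h1).2 (Subgroup.normalCore_le _)
      have h1 : ∑ k ∈ s with N ≤ rst (f k), av D (f k) g = 0 := by
        have := h k0 hk0 g
        unfold yy at this
        convert this
      have h2 := ih _ hsub (fun k1 hk1 g => ?_) g
      · rw [← Finset.sum_filter_add_sum_filter_not s fun k => N ≤ rst (f k), h1, h2, zero_add]
      · obtain ⟨hk1s, hk1N⟩ := Finset.mem_filter.1 hk1
        let N1 : Subgroup G := (rst (f k1)).normalCore
        have h3 : ∀ g, ∑ k ∈ s.filter (fun k => N1 ≤ rst (f k)), av D (f k) g = 0 := by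
          intro g
          have := h k1 hk1s g
          unfold yy at this
          convert this
        have h4 := sum_coset D c f hcomm hc2 hf hidx N (s.filter (fun k => N1 ≤ rst (f k))) g
        have h5 : ∑ n : G, (if n ∈ N then
            ∑ k ∈ s.filter (fun k => N1 ≤ rst (f k)), av D (f k) (g * n) else 0) = 0 := by
          refine Finset.sum_eq_zero fun n _ => ?_
          rw [h3, ite_self]
        rw [h5] at h4
        have h6 := (mul_eq_zero.1 h4.symm).resolve_left (nD_pos N).ne'
        unfold yy at h6 ⊢
        rw [Finset.filter_filter] at h6 ⊢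
        have h7 := h3 g
        rw [← Finset.sum_filter_add_sum_filter_not _ (fun k => N ≤ rst (f k)),
          Finset.filter_filter, Finset.filter_filter, h6, zero_add] at h7
        rw [← h7]
        refine Finset.sum_congr ?_ fun _ _ => rfl
        ext k
        simp only [Finset.mem_filter]
        tauto

variable [Fintype κ] (hB : ∀ g, |∑ k, av D (f k) g| ≤ nD D)

omit hcomm hc2 hf hidx in
theorem yy_c (hcomm : ∀ g, c * g = g * c) (hf : ∀ k, IsSign c (f k)) (N : Subgroup G)
    (s : Finset κ) (g : G) : yy D f N s (c * g) = -yy D f N s g := by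
  classical
  unfold yy
  rw [← Finset.sum_neg_distrib]
  exact Finset.sum_congr rfl fun k _ => av_c D c hcomm (hf k) g

omit hcomm hc2 hf hidx in
theorem yy_right (N : Subgroup G) (s : Finset κ) (g : G) {n : G} (hn : n ∈ N) :
    yy D f N s (g * n) = yy D f N s g := by
  classical
  unfold yy
  exact Finset.sum_congr rfl fun k hk => av_right D ((Finset.mem_filter.1 hk).2 hn) g

omit hcomm hc2 hf hidx in
theorem yy_left (N : Subgroup G) (s : Finset κ) (g : G) {d : G} (hd : d ∈ D) :
    yy D f N s (d * g) = yy D f N s g := by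
  classical
  unfold yy
  exact Finset.sum_congr rfl fun k hk => av_left D (f k) hd g

omit hc2 in
theorem yy_dvd (N : Subgroup G) (s : Finset κ) (g : G) : nD D ∣ yy D f N s g := by
  classical
  unfold yy
  refine Finset.dvd_sum fun k _ => ?_
  rcases av_values D c hcomm (hf k) (hidx k) g with h | h | h
  · rw [h]
    exact dvd_zero _
  · rw [h]
  · rw [h]
    exact (dvd_neg).2 dvd_rfl

include hB

/-- The values of the partial sums. -/
theorem yy_values (N : Subgroup G) [N.Normal] (g : G) :
    yy D f N Finset.univ g = 0 ∨ yy D f N Finset.univ g = nD D ∨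
      yy D f N Finset.univ g = -nD D := by
  classical
  have h1 := sum_coset D c f hcomm hc2 hf hidx N Finset.univ g
  have hpos := nD_pos D
  have hposN := nD_pos N
  have h2 : |nD N * yy D f N Finset.univ g| ≤ nD N * nD D := by
    rw [← h1]
    refine (Finset.abs_sum_le_sum_abs _ _).trans ?_
    conv_rhs => unfold nD
    rw [Finset.sum_mul]
    refine Finset.sum_le_sum fun n _ => ?_
    by_cases hn : n ∈ N
    · rw [if_pos hn, if_pos hn, one_mul]
      exact hB _
    · rw [if_neg hn, if_neg hn, abs_zero, zero_mul]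
  rw [abs_mul, abs_of_pos hposN] at h2
  have h3 := le_of_mul_le_mul_left h2 hposN
  obtain ⟨m, hm⟩ := yy_dvd D c f hcomm hf hidx N Finset.univ g
  rw [hm, abs_mul, abs_of_pos hpos] at h3
  have h4 : |m| ≤ 1 := by
    by_contra h
    push Not at h
    nlinarith
  rw [hm]
  have h5 : m = 0 ∨ m = 1 ∨ m = -1 := by
    rw [abs_le] at h4
    omega
  rcases h5 with rfl | rfl | rfl
  · exact Or.inl (mul_zero _)
  · exact Or.inr (Or.inl (mul_one _))
  · exact Or.inr (Or.inr (mul_neg_one _))

/-- Where a partial sum does not vanish, the sum is constant on the coset. -/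
theorem eq_yy (N : Subgroup G) [N.Normal] (g : G) (hg : yy D f N Finset.univ g ≠ 0) (n : G)
    (hn : n ∈ N) : ∑ k, av D (f k) (g * n) = yy D f N Finset.univ g := by
  classical
  have h1 := sum_coset D c f hcomm hc2 hf hidx N Finset.univ g
  have hpos := nD_pos D
  have hb : ∀ x, ∑ k, av D (f k) x ≤ nD D ∧ -nD D ≤ ∑ k, av D (f k) x := fun x => by
    have := abs_le.1 (hB x)
    exact ⟨this.2, this.1⟩
  rcases yy_values D c f hcomm hc2 hf hidx hB N g with h | h | h
  · exact absurd h hg
  · rw [h] at h1 ⊢
    have h2 : ∑ m : G, (if m ∈ N then (nD D - ∑ k, av D (f k) (g * m)) else 0) = 0 := by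
      have e1 : ∀ m : G, (if m ∈ N then (nD D - ∑ k, av D (f k) (g * m)) else 0) =
          (if m ∈ N then 1 else 0) * nD D - (if m ∈ N then ∑ k, av D (f k) (g * m) else 0) := by
        intro m
        by_cases hm : m ∈ N
        · simp only [if_pos hm, one_mul]
        · simp only [if_neg hm, zero_mul, sub_zero]
      rw [Finset.sum_congr rfl fun m _ => e1 m, Finset.sum_sub_distrib, ← Finset.sum_mul, h1]
      unfold nD
      ring
    have h3 := (Finset.sum_eq_zero_iff_of_nonneg (fun m _ => by
      split_ifs
      · have := (hb (g * m)).1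
        omega
      · exact le_rfl)).1 h2 n (Finset.mem_univ n)
    rw [if_pos hn] at h3
    omega
  · rw [h] at h1 ⊢
    have h2 : ∑ m : G, (if m ∈ N then (nD D + ∑ k, av D (f k) (g * m)) else 0) = 0 := by
      have e1 : ∀ m : G, (if m ∈ N then (nD D + ∑ k, av D (f k) (g * m)) else 0) =
          (if m ∈ N then 1 else 0) * nD D + (if m ∈ N then ∑ k, av D (f k) (g * m) else 0) := by
        intro m
        by_cases hm : m ∈ N
        · simp only [if_pos hm, one_mul]
        · simp only [if_neg hm, zero_mul, add_zero]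
      rw [Finset.sum_congr rfl fun m _ => e1 m, Finset.sum_add_distrib, ← Finset.sum_mul, h1]
      unfold nD
      ring
    have h3 := (Finset.sum_eq_zero_iff_of_nonneg (fun m _ => by
      split_ifs
      · have := (hb (g * m)).2
        omega
      · exact le_rfl)).1 h2 n (Finset.mem_univ n)
    rw [if_pos hn] at h3
    omega

/-- The supports of two different partial sums are disjoint. -/
theorem disjoint_support (N0 N1 : Subgroup G) [N0.Normal] [N1.Normal] (hc : c ∈ N0 ⊔ N1) (g : G)
    (h0 : yy D f N0 Finset.univ g ≠ 0) : yy D f N1 Finset.univ g = 0 := by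
  classical
  by_contra h1
  obtain ⟨a, ha, b, hb, hab⟩ := Subgroup.mem_sup_of_normal_left.1 hc
  have e0 := eq_yy D c f hcomm hc2 hf hidx hB N0 g h0
  have e1 := eq_yy D c f hcomm hc2 hf hidx hB N1 g h1
  have e2 := e0 1 N0.one_mem
  have e3 := e0 a ha
  have e4 := e1 1 N1.one_mem
  have h2 : yy D f N1 Finset.univ (c * g) = -yy D f N1 Finset.univ g :=
    yy_c D c f hcomm hf N1 Finset.univ g
  have e5 := eq_yy D c f hcomm hc2 hf hidx hB N1 (c * g) (by rw [h2]; exact neg_ne_zero.2 h1)
    b⁻¹ (N1.inv_mem hb)
  have e6 : c * g * b⁻¹ = g * a := by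
    rw [hcomm g, mul_assoc, ← hab, mul_assoc, mul_inv_cancel, mul_one]
  rw [e6, h2] at e5
  omega

end family

end

end Pool.Agent.R937.CS
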