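import Pool.Agent.Y137.SF.Sep

/-!
# Sums of sign functions with stabilizers of small index
-/

set_option autoImplicit false
set_option linter.unusedSectionVars false
set_option linter.unusedVariables false

namespace Pool.Agent.R937.CS

open Pool.Agent.W495.TA Pool.Agent.W495.TC Pool.Agent.TH117.BL Pool.Agent.Y137.SF

noncomputable section

/-- Four different cosets of a subgroup of index at most four are all cosets. -/
theorem four_cosets {G : Type} [Group G] [Finite G] (H : Subgroup G) (hidx : H.index ≤ 4)
    (v : Fin 4 → G) (hv : ∀ i k, i < k → (v i)⁻¹ * v k ∉ H) (x : G) : ∃ i, (v i)⁻¹ * x ∈ H := by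
  classical
  let w : Fin 4 → G ⧸ H := fun i => ((v i : G) : G ⧸ H)
  have hw : Function.Injective w := by
    intro i k h
    rcases lt_trichotomy i k with h1 | h1 | h1
    · exact absurd (QuotientGroup.eq.1 h) (hv i k h1)
    · exact h1
    · exact absurd (QuotientGroup.eq.1 h.symm) (hv k i h1)
  have hwb : Function.Bijective w := by
    refine hw.bijective_of_nat_card_le ?_
    rw [Nat.card_eq_fintype_card (α := Fin 4), Fintype.card_fin]
    exact hidx
  obtain ⟨i, hi⟩ := hwb.2 (x : G ⧸ H)
  exact ⟨i, QuotientGroup.eq.1 hi⟩

theorem c_notMem {G : Type} [Group G] (c : G) {f : G → ℤ} (hf : IsSign c f) : c ∉ rst f := by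
  intro h
  have h1 := h 1
  have h2 : f (c * 1) = -f 1 := hf.odd 1
  rw [one_mul] at h1
  rw [mul_one, h1] at h2
  rcases hf.sign 1 with h3 | h3 <;> rw [h3] at h2 <;> norm_num at h2

section av

variable {G : Type} [Group G] [Fintype G] (D : Subgroup G)

open Classical in
/-- The sums of `f` over the cosets of `D`. -/
def av (f : G → ℤ) : G → ℤ := fun g => ∑ d : G, if d ∈ D then f (d * g) else 0

open Classical in
/-- The order of `D`. -/
def nD : ℤ := ∑ d : G, if d ∈ D then 1 else 0

theorem nD_pos : 0 < nD D := by
  classical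
  unfold nD
  refine Finset.sum_pos' (fun d _ => ?_) ⟨1, Finset.mem_univ _, ?_⟩
  · split_ifs <;> norm_num
  · rw [if_pos D.one_mem]
    norm_num

theorem av_left (f : G → ℤ) {d : G} (hd : d ∈ D) (g : G) : av D f (d * g) = av D f g := by
  classical
  unfold av
  rw [← Equiv.sum_comp (Equiv.mulRight d) (fun d' => if d' ∈ D then f (d' * g) else 0)]
  refine Finset.sum_congr rfl fun d' _ => ?_
  rw [Equiv.coe_mulRight, D.mul_mem_cancel_right hd, mul_assoc]

theorem av_right {f : G → ℤ} {h : G} (hh : h ∈ rst f) (g : G) : av D f (g * h) = av D f g := by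
  classical
  unfold av
  refine Finset.sum_congr rfl fun d' _ => ?_
  rw [← mul_assoc, hh]

variable (c : G) (hcomm : ∀ g, c * g = g * c) (hc2 : c * c = 1)

include hcomm

theorem av_c {f : G → ℤ} (hf : IsSign c f) (g : G) : av D f (c * g) = -av D f g := by
  classical
  unfold av
  rw [← Finset.sum_neg_distrib]
  refine Finset.sum_congr rfl fun d' _ => ?_
  have h1 : d' * (c * g) = c * (d' * g) := by rw [← mul_assoc, ← hcomm, mul_assoc]
  have h2 : f (c * (d' * g)) = -f (d' * g) := hf.odd _
  by_cases h : d' ∈ D
  · rw [if_pos h, if_pos h, h1, h2]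
  · rw [if_neg h, if_neg h, neg_zero]

omit hcomm in
theorem abs_av_le {f : G → ℤ} (hf : IsSign c f) (g : G) : |av D f g| ≤ nD D := by
  classical
  unfold av nD
  refine (Finset.abs_sum_le_sum_abs _ _).trans (Finset.sum_le_sum fun d _ => ?_)
  by_cases h : d ∈ D
  · rw [if_pos h, if_pos h]
    rcases hf.sign (d * g) with h1 | h1 <;> rw [h1] <;> norm_num
  · rw [if_neg h, if_neg h, abs_zero]

/-- The possible values. -/
theorem av_values {f : G → ℤ} (hf : IsSign c f) (hidx : (rst f).index ≤ 4) (g : G) :
    av D f g = 0 ∨ av D f g = nD D ∨ av D f g = -nD D := by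
  classical
  have hfc : ∀ x, f (c * x) = -f x := fun x => hf.odd x
  by_cases h1 : ∃ d ∈ D, (c * g)⁻¹ * (d * g) ∈ rst f
  · -- the sum is zero
    obtain ⟨d, hd, h1⟩ := h1
    left
    have h2 : av D f g = av D f (d * g) := (av_left D f hd g).symm
    have h3 : d * g = (c * g) * ((c * g)⁻¹ * (d * g)) := by group
    rw [h3, av_right D h1, av_c D c hcomm hf] at h2
    omega
  · push Not at h1
    by_cases h2 : ∃ d1 ∈ D, f (d1 * g) ≠ f g
    · obtain ⟨d1, hd1, h2⟩ := h2
      left
      have h3 : f (d1 * g) = -f g := by
        rcases hf.sign (d1 * g) with a | a <;> rcases hf.sign g with b | b <;> omega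
      have hne : g⁻¹ * (d1 * g) ∉ rst f := by
        intro h
        have h4 := h g
        rw [mul_inv_cancel_left] at h4
        exact h2 h4
      have hcH : c ∉ rst f := c_notMem c hf
      have hcos := four_cosets (rst f) hidx ![g, c * g, d1 * g, c * (d1 * g)] (by
        intro i k hik
        have e1 : ∀ y : G, y⁻¹ * (c * y) = c := fun y => by
          rw [hcomm, inv_mul_cancel_left]
        fin_cases i <;> fin_cases k <;> first
          | exact absurd hik (by decide)
          | skip
        · change g⁻¹ * (c * g) ∉ rst f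
          rw [e1]
          exact hcH
        · exact hne
        · change g⁻¹ * (c * (d1 * g)) ∉ rst f
          intro h
          have e2 : (c * g)⁻¹ * (d1 * g) = c⁻¹ * c⁻¹ * (g⁻¹ * (c * (d1 * g))) := by
            have e3 : g⁻¹ * (c * (d1 * g)) = c * (g⁻¹ * (d1 * g)) := by
              rw [← mul_assoc, ← hcomm, mul_assoc]
            have e4 : c⁻¹ * g⁻¹ = g⁻¹ * c⁻¹ := by
              rw [← mul_inv_rev, ← mul_inv_rev, hcomm]
            rw [e3, mul_inv_rev, mul_assoc c⁻¹, inv_mul_cancel_left, e4.symm, mul_assoc]
          have hc4 : c⁻¹ * c⁻¹ ∈ rst f := by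
            have hcc : c * c ∈ rst f := by
              intro x
              rw [← mul_assoc, ← hcomm (x * c), ← hcomm x, hfc, hfc, neg_neg]
            rw [← mul_inv_rev]
            exact (rst f).inv_mem hcc
          refine h1 d1 hd1 ?_
          rw [e2]
          exact (rst f).mul_mem hc4 h
        · exact h1 d1 hd1
        · change (c * g)⁻¹ * (c * (d1 * g)) ∉ rst f
          have e2 : (c * g)⁻¹ * (c * (d1 * g)) = g⁻¹ * (d1 * g) := by group
          rw [e2]
          exact hne
        · change (d1 * g)⁻¹ * (c * (d1 * g)) ∉ rst f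
          rw [e1]
          exact hcH)
      -- no element of `D g` is in the conjugate cosets
      have hex1 : ∀ d ∈ D, (c * g)⁻¹ * (d * g) ∉ rst f := h1
      have hex2 : ∀ d ∈ D, (c * (d1 * g))⁻¹ * (d * g) ∉ rst f := by
        intro d hd h
        refine h1 (d1⁻¹ * d) (D.mul_mem (D.inv_mem hd1) hd) ?_
        have e2 : (c * g)⁻¹ * (d1⁻¹ * d * g) = (c * (d1 * g))⁻¹ * (d * g) := by
          have e3 : c * (d1 * g) = d1 * (c * g) := by
            rw [← mul_assoc, hcomm, mul_assoc]
          rw [e3]
          group
        rw [e2]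
        exact h
      have hcl : ∀ d ∈ D, g⁻¹ * (d * g) ∈ rst f ∨ (d1 * g)⁻¹ * (d * g) ∈ rst f := by
        intro d hd
        obtain ⟨i, hi⟩ := hcos (d * g)
        fin_cases i
        · exact Or.inl hi
        · exact absurd hi (hex1 d hd)
        · exact Or.inr hi
        · exact absurd hi (hex2 d hd)
      have hval : ∀ a x : G, a⁻¹ * x ∈ rst f → f x = f a := by
        intro a x h
        have h4 := h a
        rwa [mul_inv_cancel_left] at h4
      have hpair : ∀ d ∈ D, f (d * g) + f (d * d1 * g) = 0 := by
        intro d hd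
        rcases hcl d hd with h4 | h4
        · rw [hval _ _ h4]
          rcases hcl (d * d1) (D.mul_mem hd hd1) with h5 | h5
          · exfalso
            apply hne
            have h6 := (rst f).mul_mem ((rst f).inv_mem h4) h5
            have e2 : (g⁻¹ * (d * g))⁻¹ * (g⁻¹ * (d * d1 * g)) = g⁻¹ * (d1 * g) := by group
            rw [e2] at h6
            exact h6
          · rw [hval _ _ h5, h3]
            ring
        · rw [hval _ _ h4, h3]
          rcases hcl (d * d1) (D.mul_mem hd hd1) with h5 | h5
          · rw [hval _ _ h5]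
            ring
          · exfalso
            apply hne
            have h6 := (rst f).mul_mem ((rst f).inv_mem h4) h5
            have e2 : ((d1 * g)⁻¹ * (d * g))⁻¹ * ((d1 * g)⁻¹ * (d * d1 * g)) =
              g⁻¹ * (d1 * g) := by group
            rw [e2] at h6
            exact h6
      have h5 : av D f g + av D f g = 0 := by
        nth_rw 2 [← av_left D f hd1 g]
        unfold av
        rw [← Finset.sum_add_distrib]
        refine Finset.sum_eq_zero fun d _ => ?_
        by_cases hd : d ∈ D
        · rw [if_pos hd, if_pos hd, ← mul_assoc]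
          exact hpair d hd
        · rw [if_neg hd, if_neg hd, add_zero]
      omega
    · push Not at h2
      have h3 : av D f g = f g * nD D := by
        unfold av nD
        rw [Finset.mul_sum]
        refine Finset.sum_congr rfl fun d _ => ?_
        by_cases hd : d ∈ D
        · rw [if_pos hd, if_pos hd, h2 d hd, mul_one]
        · rw [if_neg hd, if_neg hd, mul_zero]
      rw [h3]
      rcases hf.sign g with h | h
      · right; left
        rw [h, one_mul]
      · right; right
        rw [h, neg_one_mul]

end av

end

end Pool.Agent.R937.CS
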