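import Pool.Agent.R937.CS.Grp

/-!
# Normal subgroups and sign functions with stabilizers of small index
-/

set_option autoImplicit false
set_option linter.unusedSectionVars false
set_option linter.unusedVariables false

namespace Pool.Agent.R937.CS

open Pool.Agent.W495.TA Pool.Agent.W495.TC Pool.Agent.TH117.BL Pool.Agent.Y137.SF

noncomputable section

section faithful

variable {B : Type} [Group B] [Finite B] (c : B) (hcomm : ∀ g, c * g = g * c) (hc2 : c * c = 1)

include hcomm hc2

/-- All normal subgroups different from one contain `c`. -/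
theorem mono_core (f : B → ℤ) (hf : IsSign c f) (hidx : (rst f).index ≤ 4)
    (hcore : ∀ a, (∀ b, b⁻¹ * a * b ∈ rst f) → a = 1) (M : Subgroup B) [hM : M.Normal] (m : B)
    (hm : m ∈ M) (hm1 : m ≠ 1) : c ∈ M := by
  classical
  have hfc : ∀ x, f (c * x) = -f x := fun x => hf.odd x
  have hcH : c ∉ rst f := c_notMem c hf
  have hc1 : c ≠ 1 := fun h => hcH (by rw [h]; exact (rst f).one_mem)
  have key : ∀ x : B, x * m = c * (m * x) → c ∈ M := by
    intro x hx
    have h1 := M.mul_mem (hM.conj_mem m hm x) (M.inv_mem hm)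
    have e1 : x * m * x⁻¹ * m⁻¹ = c := by
      rw [hx]
      group
    rwa [e1] at h1
  by_cases hH : rst f = ⊥
  · by_contra hcM
    have hmc : m ≠ c := fun h => hcM (h ▸ hm)
    have hcm : c * m ≠ 1 := fun h => by
      apply hcM
      rw [eq_inv_of_mul_eq_one_left h]
      exact M.inv_mem hm
    have hcos := four_cosets (rst f) hidx ![1, c, m, c * m] (by
      rw [hH]
      intro i k hik
      rw [Subgroup.mem_bot]
      fin_cases i <;> fin_cases k <;> first
        | exact absurd hik (by decide)
        | skip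
      · change (1 : B)⁻¹ * c ≠ 1
        rwa [inv_one, one_mul]
      · change (1 : B)⁻¹ * m ≠ 1
        rwa [inv_one, one_mul]
      · change (1 : B)⁻¹ * (c * m) ≠ 1
        rwa [inv_one, one_mul]
      · change c⁻¹ * m ≠ 1
        rw [ne_eq, inv_mul_eq_one]
        exact hmc.symm
      · change c⁻¹ * (c * m) ≠ 1
        rwa [inv_mul_cancel_left]
      · change m⁻¹ * (c * m) ≠ 1
        rwa [hcomm, inv_mul_cancel_left])
    have hel : ∀ x : B, x = 1 ∨ x = c ∨ x = m ∨ x = c * m := by
      intro x
      obtain ⟨i, hi⟩ := hcos x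
      rw [hH, Subgroup.mem_bot, inv_mul_eq_one] at hi
      fin_cases i
      · exact Or.inl hi.symm
      · exact Or.inr (Or.inl hi.symm)
      · exact Or.inr (Or.inr (Or.inl hi.symm))
      · exact Or.inr (Or.inr (Or.inr hi.symm))
    have hmm : m * m = 1 := by
      rcases hel (m * m) with h | h | h | h
      · exact h
      · exact absurd (h ▸ M.mul_mem hm hm) hcM
      · exact absurd (mul_eq_left.1 h) hm1
      · exact absurd (mul_right_cancel h) hmc
    have hred : ∀ r : B, f (1 * r) = f 1 → f (m * r) = f m → r ∈ rst f := by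
      intro r e1 e2 g
      rcases hel g with rfl | rfl | rfl | rfl
      · exact e1
      · have h1 := hfc (1 * r)
        have h2 := hfc 1
        rw [← mul_assoc, mul_one] at h1
        rw [mul_one] at h2
        rw [h1, h2, e1]
      · exact e2
      · rw [mul_assoc, hfc, hfc, e2]
    have hne : ∀ r : B, r ∈ rst f → r = 1 := fun r hr => by
      rw [hH] at hr
      exact Subgroup.mem_bot.1 hr
    have hf1c : f c = -f 1 := by
      have := hfc 1
      rwa [mul_one] at this
    have hcases : f m = f 1 ∨ f m = -f 1 := by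
      rcases hf.sign 1 with h3 | h3 <;> rcases hf.sign m with h4 | h4 <;> omega
    rcases hcases with h | h
    · exact hm1 (hne m (hred m (by rw [one_mul, h]) (by rw [hmm, h])))
    · refine hcm (hne (c * m) (hred _ (by rw [one_mul, hfc, h, neg_neg]) ?_))
      rw [← mul_assoc, ← hcomm, mul_assoc, hmm, mul_one, hf1c, h]
  · obtain ⟨⟨τ, hτ⟩, hτ1⟩ := (Subgroup.ne_bot_iff_exists_ne_one).1 hH
    have hτ1' : τ ≠ 1 := fun h => hτ1 (Subtype.ext h)
    obtain ⟨hH1, hττ, σ, hσσ, hτσ, hσH, dec⟩ := exists_sigma c hcomm hc2 (rst f) hcH hidx hcore τ hτ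
      hτ1'
    have hH2 : ∀ b ∈ rst f, b = 1 ∨ b = τ := by
      intro b hb
      by_cases h : b = 1
      · exact Or.inl h
      · exact Or.inr (hH1 b hb h)
    have hσinv : ∀ b x : B, σ * b = x → b = σ * x := by
      intro b x h
      rw [← h, ← mul_assoc, hσσ, one_mul]
    have hcinv : ∀ b x : B, c * b = x → b = c * x := by
      intro b x h
      rw [← h, ← mul_assoc, hc2, one_mul]
    have hcc : ∀ x : B, c * (c * x) = x := fun x => by rw [← mul_assoc, hc2, one_mul]
    have hστ : σ * τ = c * (τ * σ) := by rw [hτσ, hcc]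
    have hcl : ∀ x y : B, x * (c * y) = c * (x * y) := fun x y => by
      rw [← mul_assoc, ← hcomm, mul_assoc]
    rcases dec m with h | h | h | h
    · rcases hH2 _ h with rfl | rfl
      · exact absurd rfl hm1
      · exact key σ hστ
    · rcases hH2 _ h with h1 | h1
      · rw [eq_inv_of_mul_eq_one_left h1]
        exact M.inv_mem hm
      · have h2 := hcinv _ _ h1
        refine key σ ?_
        rw [h2, hcl, hστ, hcc, mul_assoc, hcc]
    · rcases hH2 _ h with h1 | h1
      · have h2 := hσinv _ _ h1
        rw [mul_one] at h2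
        refine key τ ?_
        rw [h2]
        exact hτσ
      · have h2 := hσinv _ _ h1
        refine key τ ?_
        rw [h2, ← mul_assoc, hτσ, mul_assoc]
    · rcases hH2 _ h with h1 | h1
      · have h2 := hcinv _ _ (hσinv _ _ h1)
        rw [mul_one] at h2
        refine key τ ?_
        rw [h2, hcl, hτσ, mul_assoc]
      · have h2 := hcinv _ _ (hσinv _ _ h1)
        refine key τ ?_
        rw [h2, hcl, ← mul_assoc τ σ τ, hτσ, mul_assoc, mul_assoc]

/-- The order of the group is at most eight. -/
theorem card_le_eight (H : Subgroup B) (hcH : c ∉ H) (hidx : H.index ≤ 4)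
    (hcore : ∀ a, (∀ b, b⁻¹ * a * b ∈ H) → a = 1) : Nat.card B ≤ 8 := by
  classical
  by_cases hH : H = ⊥
  · rw [hH, Subgroup.index_bot] at hidx
    omega
  · obtain ⟨⟨τ, hτ⟩, hτ1⟩ := (Subgroup.ne_bot_iff_exists_ne_one).1 hH
    have hτ1' : τ ≠ 1 := fun h => hτ1 (Subtype.ext h)
    obtain ⟨hH1, -⟩ := exists_sigma c hcomm hc2 H hcH hidx hcore τ hτ hτ1'
    have hcardH : Nat.card H ≤ 2 := by
      have h1 : Function.Injective fun h : H => decide ((h : B) = 1) := by
        intro a b hab
        have h2 : ((a : B) = 1) ↔ ((b : B) = 1) := by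
          have := congrArg (fun x => x = true) hab
          simpa using this
        by_cases ha : (a : B) = 1
        · exact Subtype.ext (ha.trans (h2.1 ha).symm)
        · exact Subtype.ext ((hH1 a a.2 ha).trans (hH1 b b.2 (fun hb => ha (h2.2 hb))).symm)
      have h2 := Nat.card_le_card_of_injective _ h1
      rw [Nat.card_eq_fintype_card (α := Bool), Fintype.card_bool] at h2
      exact h2
    rw [← Subgroup.index_mul_card H]
    calc H.index * Nat.card H ≤ 4 * 2 := Nat.mul_le_mul hidx hcardH
      _ = 8 := rfl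

end faithful

section descend

variable {G : Type} [Group G]

/-- Functions on the quotient. -/
theorem descend (N : Subgroup G) [N.Normal] (f : G → ℤ) (hN : N ≤ rst f) :
    ∃ f' : G ⧸ N → ℤ, ∀ g : G, f' (QuotientGroup.mk' N g) = f g := by
  refine ⟨fun q => Quotient.liftOn' q f fun a b h => ?_, fun g => rfl⟩
  have h1 : a⁻¹ * b ∈ N := QuotientGroup.leftRel_apply.1 h
  have h2 := hN h1 a
  rw [mul_inv_cancel_left] at h2
  exact h2.symm

variable {N : Subgroup G} [N.Normal] {f : G → ℤ} {f' : G ⧸ N → ℤ}
  (hf' : ∀ g : G, f' (QuotientGroup.mk' N g) = f g)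

include hf'

theorem rst_descend (τ : G) : QuotientGroup.mk' N τ ∈ rst f' ↔ τ ∈ rst f := by
  constructor
  · intro h σ
    rw [← hf', map_mul, h, hf']
  · intro h q
    obtain ⟨σ, rfl⟩ := QuotientGroup.mk'_surjective N q
    rw [← map_mul, hf', hf', h]

theorem comap_descend : (rst f').comap (QuotientGroup.mk' N) = rst f := by
  ext τ
  exact rst_descend hf' τ

theorem index_descend : (rst f').index = (rst f).index := by
  rw [← comap_descend hf', Subgroup.index_comap_of_surjective _ (QuotientGroup.mk'_surjective N)]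

theorem isSign_descend {c : G} (hf : IsSign c f) : IsSign (QuotientGroup.mk' N c) f' := by
  refine ⟨fun q => ?_, fun q => ?_⟩
  · obtain ⟨σ, rfl⟩ := QuotientGroup.mk'_surjective N q
    rw [hf']
    exact hf.sign σ
  · obtain ⟨σ, rfl⟩ := QuotientGroup.mk'_surjective N q
    rw [smul_eq_mul, ← map_mul, hf', hf']
    exact hf.odd σ

theorem core_descend (hN : (rst f).normalCore ≤ N) (a : G ⧸ N)
    (ha : ∀ b, b⁻¹ * a * b ∈ rst f') : a = 1 := by
  obtain ⟨a, rfl⟩ := QuotientGroup.mk'_surjective N a
  have h1 : a ∈ (rst f).normalCore := by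
    intro b
    have h2 := ha (QuotientGroup.mk' N b⁻¹)
    rw [← map_inv, inv_inv, ← map_mul, ← map_mul, rst_descend hf'] at h2
    exact h2
  exact (QuotientGroup.eq_one_iff a).2 (hN h1)

end descend

section group

variable {G : Type} [Group G] [Finite G] (c : G) (hcomm : ∀ g, c * g = g * c) (hc2 : c * c = 1)

theorem comm_quot (hcomm : ∀ g, c * g = g * c) (N : Subgroup G) [N.Normal] (g : G ⧸ N) :
    QuotientGroup.mk' N c * g = g * QuotientGroup.mk' N c := by
  obtain ⟨g, rfl⟩ := QuotientGroup.mk'_surjective N g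
  rw [← map_mul, ← map_mul, hcomm]

theorem sq_quot (hc2 : c * c = 1) (N : Subgroup G) [N.Normal] :
    QuotientGroup.mk' N c * QuotientGroup.mk' N c = 1 := by
  rw [← map_mul, hc2, map_one]

include hcomm hc2

/-- A normal subgroup that is not contained in the stabilizer generates, with the core of the
stabilizer, a subgroup that contains `c`. -/
theorem mono (f : G → ℤ) (hf : IsSign c f) (hidx : (rst f).index ≤ 4) (M : Subgroup G)
    [hM : M.Normal] (hMf : ¬ M ≤ rst f) : c ∈ M ⊔ (rst f).normalCore := by
  classical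
  obtain ⟨f', hf'⟩ := descend (rst f).normalCore f (Subgroup.normalCore_le _)
  obtain ⟨m, hm, hmf⟩ : ∃ m ∈ M, m ∉ rst f := by
    by_contra h
    push Not at h
    exact hMf h
  have hnorm : (M.map (QuotientGroup.mk' (rst f).normalCore)).Normal :=
    hM.map _ (QuotientGroup.mk'_surjective _)
  have h1 := mono_core (QuotientGroup.mk' _ c) (comm_quot c hcomm (rst f).normalCore)
    (sq_quot c hc2 _) f' (isSign_descend hf' hf) (by rw [index_descend hf']; exact hidx)
    (core_descend hf' le_rfl) (M.map (QuotientGroup.mk' (rst f).normalCore))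
    (QuotientGroup.mk' _ m) ⟨m, hm, rfl⟩ (fun h => by
      have h2 := (QuotientGroup.eq_one_iff m).1 h
      exact hmf (Subgroup.normalCore_le _ h2))
  have h2 : c ∈ (M.map (QuotientGroup.mk' (rst f).normalCore)).comap
    (QuotientGroup.mk' (rst f).normalCore) := h1
  rw [Subgroup.comap_map_eq, QuotientGroup.ker_mk'] at h2
  exact h2

/-- The index of the core is at most eight. -/
theorem index_core_le (f : G → ℤ) (hf : IsSign c f) (hidx : (rst f).index ≤ 4) :
    (rst f).normalCore.index ≤ 8 := by
  classical
  obtain ⟨f', hf'⟩ := descend (rst f).normalCore f (Subgroup.normalCore_le _)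
  exact card_le_eight (QuotientGroup.mk' _ c) (comm_quot c hcomm (rst f).normalCore)
    (sq_quot c hc2 _) (rst f') (c_notMem _ (isSign_descend hf' hf))
    (by rw [index_descend hf']; exact hidx) (core_descend hf' le_rfl)

/-- Sign functions that are invariant under the core of a stabilizer of index at most four. -/
theorem index_le_of_core (f : G → ℤ) (hf : IsSign c f) (hidx : (rst f).index ≤ 4) (g : G → ℤ)
    (hg : IsSign c g) (hN : (rst f).normalCore ≤ rst g) : (rst g).index ≤ 4 := by
  classical
  obtain ⟨f', hf'⟩ := descend (rst f).normalCore f (Subgroup.normalCore_le _)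
  obtain ⟨g', hg'⟩ := descend (rst f).normalCore g hN
  rw [← index_descend hg']
  exact index_rst_le (QuotientGroup.mk' _ c) (comm_quot c hcomm (rst f).normalCore)
    (sq_quot c hc2 _) (rst f') (c_notMem _ (isSign_descend hf' hf))
    (by rw [index_descend hf']; exact hidx) (core_descend hf' le_rfl) g' (isSign_descend hg' hg)

end group

end

end Pool.Agent.R937.CS
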