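import Pool.Agent.R937.CS.Fam

/-!
# A bounded sum of functions of half systems with stabilizers of index at most four is the function of
one half system
-/

set_option autoImplicit false
set_option linter.unusedSectionVars false
set_option linter.unusedVariables false

namespace Pool.Agent.R937.CS

open Pool.Agent.W495.TA Pool.Agent.W495.TC Pool.Agent.TH117.BL Pool.Agent.Y137.SF

noncomputable section

/-- The sums in terms of a quotient group; parity. -/
theorem even_of_zero {G B : Type} [Group G] [Fintype G] [Group B] [Fintype B] (π : G →* B)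
    (D : Subgroup G) (c : B) (f : B → ℤ) (hf : IsSign c f) (g : G)
    (h0 : av D (fun x => f (π x)) g = 0) : Even (Nat.card (D.map π)) := by
  classical
  let m : ℤ := ∑ d : G, if d ∈ D ∧ π d = 1 then 1 else 0
  have hm : 0 < m := by
    refine Finset.sum_pos' (fun d _ => ?_) ⟨1, Finset.mem_univ _, ?_⟩
    · split_ifs <;> norm_num
    · rw [if_pos ⟨D.one_mem, map_one π⟩]
      norm_num
  have hfib : ∀ y ∈ D.map π, (∑ d : G, if d ∈ D ∧ π d = y then (1 : ℤ) else 0) = m := by
    rintro y ⟨d0, hd0, rfl⟩
    change _ = ∑ d : G, if d ∈ D ∧ π d = 1 then (1 : ℤ) else 0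
    rw [← Equiv.sum_comp (Equiv.mulLeft d0)]
    refine Finset.sum_congr rfl fun d _ => ?_
    rw [Equiv.coe_mulLeft, map_mul]
    have e1 : (d0 * d ∈ D ∧ π d0 * π d = π d0) ↔ (d ∈ D ∧ π d = 1) := by
      rw [D.mul_mem_cancel_left hd0, mul_eq_left]
    by_cases h : d ∈ D ∧ π d = 1
    · rw [if_pos h, if_pos (e1.2 h)]
    · rw [if_neg h, if_neg (fun h' => h (e1.1 h'))]
  have hav : av D (fun x => f (π x)) g =
      m * ∑ y : B, (if y ∈ D.map π then f (y * π g) else 0) := by
    have e1 : av D (fun x => f (π x)) g =
        ∑ d : G, ∑ y : B, (if d ∈ D ∧ π d = y then f (y * π g) else 0) := by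
      unfold av
      refine Finset.sum_congr rfl fun d _ => ?_
      by_cases hd : d ∈ D
      · rw [if_pos hd, Finset.sum_eq_single (π d)]
        · rw [if_pos ⟨hd, rfl⟩]
          change f (π (d * g)) = _
          rw [map_mul]
        · intro y _ hy
          rw [if_neg (fun h => hy h.2.symm)]
        · intro h
          exact absurd (Finset.mem_univ _) h
      · rw [if_neg hd]
        refine (Finset.sum_eq_zero fun y _ => ?_).symm
        rw [if_neg (fun h => hd h.1)]
    rw [e1, Finset.sum_comm, Finset.mul_sum]
    refine Finset.sum_congr rfl fun y _ => ?_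
    by_cases hy : y ∈ D.map π
    · rw [if_pos hy, ← hfib y hy, Finset.sum_mul]
      refine Finset.sum_congr rfl fun d _ => ?_
      by_cases h : d ∈ D ∧ π d = y
      · rw [if_pos h, if_pos h, one_mul]
      · rw [if_neg h, if_neg h, zero_mul]
    · rw [if_neg hy, mul_zero]
      refine Finset.sum_eq_zero fun d _ => ?_
      rw [if_neg]
      rintro ⟨h1, h2⟩
      exact hy ⟨d, h1, h2⟩
  rw [hav] at h0
  have h2 := (mul_eq_zero.1 h0).resolve_left hm.ne'
  have h3 : (Nat.card (D.map π) : ℤ) - ∑ y : B, (if y ∈ D.map π then f (y * π g) else 0) =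
      2 * ∑ y : B, (if y ∈ D.map π ∧ f (y * π g) = -1 then 1 else 0) := by
    have e1 : (Nat.card (D.map π) : ℤ) = ∑ y : B, (if y ∈ D.map π then 1 else 0) := by
      rw [Finset.sum_boole, Nat.card_eq_fintype_card, Fintype.card_subtype]
    rw [e1, ← Finset.sum_sub_distrib, Finset.mul_sum]
    refine Finset.sum_congr rfl fun y _ => ?_
    by_cases hy : y ∈ D.map π
    · rcases hf.sign (y * π g) with h | h
      · rw [if_pos hy, if_pos hy, h, if_neg (by norm_num)]
        norm_num
      · rw [if_pos hy, if_pos hy, h, if_pos ⟨hy, rfl⟩]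
        norm_num
    · rw [if_neg hy, if_neg hy, if_neg (fun h => hy h.1)]
      norm_num
  rw [h2, sub_zero] at h3
  have h5 : Even (Nat.card (D.map π) : ℤ) := ⟨_, h3.trans (two_mul _)⟩
  exact (Int.even_coe_nat _).1 h5

section family

variable {G : Type} [Group G] [Fintype G] (D : Subgroup G) (c : G)
  {κ : Type} (f : κ → G → ℤ) (hcomm : ∀ g, c * g = g * c) (hc2 : c * c = 1)

include hcomm hc2

variable (hf : ∀ k, IsSign c (f k)) (hidx : ∀ k, (rst (f k)).index ≤ 4)

include hf hidx

/-- The cores of the members of a class. -/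
theorem core_eq (k0 k : κ) (h : (rst (f k0)).normalCore ≤ rst (f k)) :
    (rst (f k)).normalCore = (rst (f k0)).normalCore := by
  have h1 : (rst (f k0)).normalCore ≤ (rst (f k)).normalCore :=
    Subgroup.normal_le_normalCore.2 h
  refine le_antisymm ?_ h1
  rw [Subgroup.normal_le_normalCore]
  by_contra h2
  have h3 := mono c hcomm hc2 (f k0) (hf k0) (hidx k0) (rst (f k)).normalCore h2
  rw [sup_eq_left.2 h1] at h3
  exact c_notMem c (hf k) (Subgroup.normalCore_le _ h3)

variable [Fintype κ] (hB : ∀ g, |∑ k, av D (f k) g| ≤ nD D)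

include hB

/-- A class whose partial sum has a zero and is not zero contains a mixed member. -/
theorem exists_mixed (N : Subgroup G) [N.Normal] (g0 g1 : G)
    (h0 : yy D f N Finset.univ g0 ≠ 0) (h1 : yy D f N Finset.univ g1 = 0) :
    ∃ k, N ≤ rst (f k) ∧ IsMix D (f k) := by
  classical
  by_contra hcon
  push Not at hcon
  have hpos := nD_pos D
  have h2 : 2 * nD D ∣ yy D f N Finset.univ g0 - yy D f N Finset.univ g1 := by
    unfold yy
    rw [← Finset.sum_sub_distrib]
    refine Finset.dvd_sum fun k hk => ?_
    have hk' := (Finset.mem_filter.1 hk).2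
    have h3 := hcon k hk'
    unfold IsMix at h3
    push Not at h3
    by_cases h4 : ∃ g, av D (f k) g = 0
    · have h5 := h3 h4
      rw [h5, h5, sub_self]
      exact dvd_zero _
    · push Not at h4
      rcases av_values D c hcomm (hf k) (hidx k) g0 with a | a | a
      · exact absurd a (h4 _)
      · rcases av_values D c hcomm (hf k) (hidx k) g1 with b | b | b
        · exact absurd b (h4 _)
        · rw [a, b, sub_self]
          exact dvd_zero _
        · rw [a, b]
          exact ⟨1, by ring⟩
      · rcases av_values D c hcomm (hf k) (hidx k) g1 with b | b | b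
        · exact absurd b (h4 _)
        · rw [a, b]
          exact ⟨-1, by ring⟩
        · rw [a, b, sub_self]
          exact dvd_zero _
  rw [h1, sub_zero] at h2
  obtain ⟨m, hm⟩ := h2
  rcases yy_values D c f hcomm hc2 hf hidx hB N g0 with a | a | a
  · exact h0 a
  · rw [a] at hm
    have h3 : nD D * (1 - 2 * m) = 0 := by linarith
    rcases mul_eq_zero.1 h3 with h4 | h4
    · omega
    · omega
  · rw [a] at hm
    have h3 : nD D * (1 + 2 * m) = 0 := by linarith
    rcases mul_eq_zero.1 h3 with h4 | h4
    · omega
    · omega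

/-- Left translations do not change the support. -/
theorem support_left (k0 : κ) (w : G) (hw : w ∈ VV D c (f k0)) (g : G)
    (h : yy D f (rst (f k0)).normalCore Finset.univ g ≠ 0) :
    yy D f (rst (f k0)).normalCore Finset.univ (w * g) ≠ 0 := by
  classical
  let N := (rst (f k0)).normalCore
  let U : Subgroup G :=
    { carrier := {w | ∀ g, yy D f N Finset.univ (w * g) = yy D f N Finset.univ g ∨
        yy D f N Finset.univ (w * g) = -yy D f N Finset.univ g}
      one_mem' := fun g => Or.inl (by rw [one_mul])
      mul_mem' := by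
        intro a b ha hb g
        rcases ha (b * g) with h1 | h1 <;> rcases hb g with h2 | h2
        · left; rw [mul_assoc, h1, h2]
        · right; rw [mul_assoc, h1, h2]
        · right; rw [mul_assoc, h1, h2]
        · left; rw [mul_assoc, h1, h2, neg_neg]
      inv_mem' := by
        intro a ha g
        have h1 := ha (a⁻¹ * g)
        rw [mul_inv_cancel_left] at h1
        rcases h1 with h1 | h1
        · left; exact h1.symm
        · right; rw [h1, neg_neg] }
  have hU : VV D c (f k0) ≤ U := by
    refine sup_le (sup_le ?_ ?_) ?_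
    · intro d hd g
      exact Or.inl (yy_left D f N Finset.univ g hd)
    · rw [Subgroup.zpowers_le]
      intro g
      exact Or.inr (yy_c D c f hcomm hf N Finset.univ g)
    · intro n hn g
      left
      have h1 : n * g = g * (g⁻¹ * n * g) := by group
      have h2 : g⁻¹ * n * g ∈ N := by
        have := (Subgroup.normalCore_normal (rst (f k0))).conj_mem n hn g⁻¹
        rwa [inv_inv] at this
      rw [h1, yy_right D f N Finset.univ g h2]
  rcases hU hw g with h1 | h1
  · rw [h1]
    exact h
  · rw [h1]
    exact neg_ne_zero.2 h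

variable (hH : ∀ k k', IsMix D (f k) → IsMix D (f k') → VV D c (f k) = VV D c (f k') →
  (rst (f k)).normalCore = (rst (f k')).normalCore)

include hH

/-- Only one class contributes. -/
theorem single (hne : ∃ g, ∑ k, av D (f k) g ≠ 0) :
    ∃ k0, ∀ g, ∑ k, av D (f k) g = yy D f (rst (f k0)).normalCore Finset.univ g := by
  classical
  obtain ⟨k0, g0, hk0⟩ : ∃ k0, ∃ g, yy D f (rst (f k0)).normalCore Finset.univ g ≠ 0 := by
    by_contra hcon
    push Not at hcon
    obtain ⟨g, hg⟩ := hne
    exact hg (sum_eq_zero_of D c f hcomm hc2 hf hidx Finset.univ (fun k _ g => hcon k g) g)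
  refine ⟨k0, ?_⟩
  by_contra hcon
  push Not at hcon
  obtain ⟨g, hg⟩ := hcon
  let N0 := (rst (f k0)).normalCore
  obtain ⟨k1, hk1, g1, hg1⟩ : ∃ k1, ¬ N0 ≤ rst (f k1) ∧
      ∃ g, yy D f (rst (f k1)).normalCore (Finset.univ.filter fun k => ¬ N0 ≤ rst (f k)) g ≠ 0 := by
    by_contra hcon
    push Not at hcon
    apply hg
    have h1 := sum_eq_zero_of D c f hcomm hc2 hf hidx
      (Finset.univ.filter fun k => ¬ N0 ≤ rst (f k))
      (fun k hk g => hcon k (Finset.mem_filter.1 hk).2 g) g
    rw [← Finset.sum_filter_add_sum_filter_not Finset.univ fun k => N0 ≤ rst (f k), h1, add_zero]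
    unfold yy
    rfl
  let N1 := (rst (f k1)).normalCore
  have hc01 : c ∈ N0 ⊔ N1 := mono c hcomm hc2 (f k1) (hf k1) (hidx k1) N0 hk1
  have hg1' : yy D f N1 Finset.univ g1 ≠ 0 := by
    have h1 : yy D f N1 (Finset.univ.filter fun k => ¬ N0 ≤ rst (f k)) g1 =
        yy D f N1 Finset.univ g1 := by
      unfold yy
      rw [Finset.filter_filter]
      refine Finset.sum_congr ?_ fun _ _ => rfl
      ext k
      simp only [Finset.mem_filter, Finset.mem_univ, true_and]
      constructor
      · exact fun h => h.2
      · intro h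
        refine ⟨fun h' => ?_, h⟩
        exact c_notMem c (hf k) ((sup_le h' h) hc01)
    rw [← h1]
    exact hg1
  have hdis : ∀ g, yy D f N0 Finset.univ g ≠ 0 → yy D f N1 Finset.univ g = 0 := fun g h =>
    disjoint_support D c f hcomm hc2 hf hidx hB N0 N1 hc01 g h
  have h01 : yy D f N1 Finset.univ g0 = 0 := hdis g0 hk0
  have h10 : yy D f N0 Finset.univ g1 = 0 := by
    by_contra h
    exact hg1' (hdis g1 h)
  obtain ⟨k, hk, hkm⟩ := exists_mixed D c f hcomm hc2 hf hidx hB N0 g0 g1 hk0 h10
  obtain ⟨k', hk', hkm'⟩ := exists_mixed D c f hcomm hc2 hf hidx hB N1 g1 g0 hg1' h01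
  have hck := core_eq c f hcomm hc2 hf hidx k0 k hk
  have hck' := core_eq c f hcomm hc2 hf hidx k1 k' hk'
  have hV0 : VV D c (f k) = VV D c (f k0) := by unfold VV; rw [hck]
  have hV1 : VV D c (f k') = VV D c (f k1) := by unfold VV; rw [hck']
  have hVne : VV D c (f k0) ≠ VV D c (f k1) := by
    intro h
    have h1 := hH k k' hkm hkm' (by rw [hV0, hV1, h])
    rw [hck, hck'] at h1
    apply hk1
    rw [show N0 = N1 from h1]
    exact Subgroup.normalCore_le _
  have hi0 : (VV D c (f k0)).index = 2 := by
    rw [← hV0]
    exact (VV_mix D c hcomm hc2 (hf k) (hidx k) hkm).1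
  have hi1 : (VV D c (f k1)).index = 2 := by
    rw [← hV1]
    exact (VV_mix D c hcomm hc2 (hf k') (hidx k') hkm').1
  have hn0 : (VV D c (f k0)).Normal := Subgroup.normal_of_index_eq_two hi0
  have htop : VV D c (f k0) ⊔ VV D c (f k1) = ⊤ := by
    rw [← Subgroup.index_eq_one]
    have h1 := Subgroup.relIndex_mul_index (le_sup_left : VV D c (f k0) ≤ VV D c (f k0) ⊔ VV D c (f k1))
    have h2 : (VV D c (f k0)).relIndex (VV D c (f k0) ⊔ VV D c (f k1)) ≠ 1 := by
      rw [ne_eq, Subgroup.relIndex_eq_one]
      intro h
      have h3 : VV D c (f k1) ≤ VV D c (f k0) := le_sup_right.trans h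
      have h4 := Subgroup.relIndex_mul_index h3
      rw [hi0, hi1] at h4
      have h5 : (VV D c (f k1)).relIndex (VV D c (f k0)) = 1 := by omega
      exact hVne (le_antisymm (Subgroup.relIndex_eq_one.1 h5) h3)
    rw [hi0] at h1
    have h3 : (VV D c (f k0) ⊔ VV D c (f k1)).index ≠ 0 := Subgroup.index_ne_zero_of_finite
    have h4 : (VV D c (f k0)).relIndex (VV D c (f k0) ⊔ VV D c (f k1)) ≠ 0 := fun h => by
      rw [h, zero_mul] at h1
      norm_num at h1
    have h5 : 2 ≤ (VV D c (f k0)).relIndex (VV D c (f k0) ⊔ VV D c (f k1)) := by omega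
    nlinarith
  have hx : g0 * g1⁻¹ ∈ VV D c (f k0) ⊔ VV D c (f k1) := by
    rw [htop]
    exact Subgroup.mem_top _
  obtain ⟨a, ha, b, hb, hab⟩ := Subgroup.mem_sup_of_normal_left.1 hx
  have e1 : a⁻¹ * g0 = b * g1 := by
    rw [inv_mul_eq_iff_eq_mul, ← mul_assoc, hab, inv_mul_cancel_right]
  have e2 := support_left D c f hcomm hc2 hf hidx hB k0 a⁻¹ ((VV D c (f k0)).inv_mem ha) g0 hk0
  have e3 := support_left D c f hcomm hc2 hf hidx hB k1 b hb g1 hg1'
  rw [← e1] at e3
  exact e3 (hdis _ e2)

/-- **The sum is the function of a sign function with a stabilizer of index at most four.** -/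
theorem exists_sign_function (hne : ∃ g, ∑ k, av D (f k) g ≠ 0) :
    ∃ f' : G → ℤ, IsSign c f' ∧ (rst f').index ≤ 4 ∧ ∀ g, av D f' g = ∑ k, av D (f k) g := by
  classical
  obtain ⟨k0, hk0⟩ := single D c f hcomm hc2 hf hidx hB hH hne
  let N := (rst (f k0)).normalCore
  let t : G → ℤ := fun g => ∑ k, av D (f k) g
  have htdef : ∀ g, t g = yy D f N Finset.univ g := hk0
  have hval : ∀ g, t g = 0 ∨ t g = nD D ∨ t g = -nD D := fun g => by
    rw [htdef]
    exact yy_values D c f hcomm hc2 hf hidx hB N g
  have htc : ∀ g, t (c * g) = -t g := fun g => by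
    rw [htdef, htdef]
    exact yy_c D c f hcomm hf N Finset.univ g
  have htr : ∀ g, ∀ n ∈ N, t (g * n) = t g := fun g n hn => by
    rw [htdef, htdef]
    exact yy_right D f N Finset.univ g hn
  have htl : ∀ g, ∀ d ∈ D, t (d * g) = t g := fun g d hd => by
    rw [htdef, htdef]
    exact yy_left D f N Finset.univ g hd
  have hpos := nD_pos D
  have hNn : N.Normal := Subgroup.normalCore_normal _
  have htn : ∀ g, ∀ n ∈ N, t (n * g) = t g := fun g n hn => by
    have h1 : n * g = g * (g⁻¹ * n * g) := by group
    have h2 : g⁻¹ * n * g ∈ N := by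
      have := hNn.conj_mem n hn g⁻¹
      rwa [inv_inv] at this
    rw [h1, htr g _ h2]
  obtain ⟨g0, hg0⟩ := hne
  change t g0 ≠ 0 at hg0
  by_cases hz : ∃ g1, t g1 = 0
  · obtain ⟨g1, hg1⟩ := hz
    let π : G →* G ⧸ N := QuotientGroup.mk' N
    let _ : Fintype (G ⧸ N) := Fintype.ofFinite _
    have hcD : π c ∉ D.map π := by
      rintro ⟨d, hd, hdc⟩
      have h1 : d⁻¹ * c ∈ N := QuotientGroup.eq.1 hdc
      have h2 := htn (g0) _ h1
      rw [mul_assoc, htl _ _ (D.inv_mem hd), htc] at h2
      omega
    have hc1 : π c ≠ 1 := fun h => hcD (by rw [h]; exact (D.map π).one_mem)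
    obtain ⟨k, hk, hkm⟩ := exists_mixed D c f hcomm hc2 hf hidx hB N g0 g1
      (by rw [← htdef]; exact hg0) (by rw [← htdef]; exact hg1)
    obtain ⟨fk, hfk⟩ := descend N (f k) hk
    obtain ⟨⟨g2, hg2⟩, -⟩ := hkm
    have heven : Even (Nat.card (D.map π)) := by
      refine even_of_zero π D (π c) fk (isSign_descend hfk (hf k)) g2 ?_
      rw [← hg2]
      congr 1
      funext x
      exact hfk x
    obtain ⟨T, hT, hT0⟩ := exists_zero π D (π c) (fun _ _ => True) Set.univ
      (fun _ _ => Set.mem_univ _) (fun _ _ _ => trivial) (comm_quot c hcomm N) (sq_quot c hc2 N)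
      hc1 hcD heven
    let f' : G → ℤ := fun g => if t g = 0 then T (π g) else if 0 < t g then 1 else -1
    have hf's : IsSign c f' := by
      refine ⟨fun g => ?_, fun g => ?_⟩
      · change (if t g = 0 then T (π g) else if 0 < t g then 1 else -1) = 1 ∨
          (if t g = 0 then T (π g) else if 0 < t g then 1 else -1) = -1
        by_cases h : t g = 0
        · rw [if_pos h]
          exact hT.sign _
        · rw [if_neg h]
          by_cases h' : 0 < t g
          · rw [if_pos h']
            exact Or.inl rfl
          · rw [if_neg h']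
            exact Or.inr rfl
      · change (if t (c * g) = 0 then T (π (c * g)) else if 0 < t (c * g) then 1 else -1) =
          -(if t g = 0 then T (π g) else if 0 < t g then 1 else -1)
        rw [htc]
        by_cases h : t g = 0
        · rw [if_pos h, if_pos (by rw [h, neg_zero]), map_mul]
          exact hT.odd _
        · rw [if_neg h, if_neg (neg_ne_zero.2 h)]
          by_cases h' : 0 < t g
          · rw [if_pos h', if_neg (by omega)]
          · rw [if_neg h', if_pos (by omega), neg_neg]
    refine ⟨f', hf's, ?_, ?_⟩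
    · refine index_le_of_core c hcomm hc2 (f k0) (hf k0) (hidx k0) f' hf's ?_
      intro n hn g
      change (if t (g * n) = 0 then T (π (g * n)) else if 0 < t (g * n) then 1 else -1) =
        (if t g = 0 then T (π g) else if 0 < t g then 1 else -1)
      rw [htr g n hn]
      have h1 : π (g * n) = π g := by
        have h2 : π n = 1 := (QuotientGroup.eq_one_iff n).2 hn
        rw [map_mul, h2, mul_one]
      rw [h1]
    · intro g
      change _ = t g
      by_cases h : t g = 0
      · have h1 : av D f' g = ph π D T g := by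
          unfold av ph
          refine Finset.sum_congr rfl fun d _ => ?_
          by_cases hd : d ∈ D
          · rw [if_pos hd, if_pos hd]
            change (if t (d * g) = 0 then T (π (d * g)) else if 0 < t (d * g) then 1 else -1) = _
            rw [if_pos (by rw [htl g d hd]; exact h)]
          · rw [if_neg hd, if_neg hd]
        rw [h1, hT0, h]
        rfl
      · have h1 : av D f' g = f' g * nD D := by
          unfold av nD
          rw [Finset.mul_sum]
          refine Finset.sum_congr rfl fun d _ => ?_
          by_cases hd : d ∈ D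
          · rw [if_pos hd, if_pos hd, mul_one]
            change (if t (d * g) = 0 then T (π (d * g)) else if 0 < t (d * g) then 1 else -1) =
              (if t g = 0 then T (π g) else if 0 < t g then 1 else -1)
            rw [htl g d hd, if_neg h, if_neg h]
          · rw [if_neg hd, if_neg hd, mul_zero]
        rw [h1]
        change (if t g = 0 then T (π g) else if 0 < t g then 1 else -1) * nD D = t g
        rw [if_neg h]
        rcases hval g with h2 | h2 | h2
        · exact absurd h2 h
        · rw [if_pos (by omega), one_mul, h2]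
        · rw [if_neg (by omega), neg_one_mul, h2]
  · push Not at hz
    let f' : G → ℤ := fun g => if 0 < t g then 1 else -1
    have hf's : IsSign c f' := by
      refine ⟨fun g => ?_, fun g => ?_⟩
      · change (if 0 < t g then (1 : ℤ) else -1) = 1 ∨ (if 0 < t g then (1 : ℤ) else -1) = -1
        by_cases h' : 0 < t g
        · rw [if_pos h']
          exact Or.inl rfl
        · rw [if_neg h']
          exact Or.inr rfl
      · change (if 0 < t (c * g) then (1 : ℤ) else -1) = -(if 0 < t g then 1 else -1)
        rw [htc]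
        have h := hz g
        by_cases h' : 0 < t g
        · rw [if_pos h', if_neg (by omega)]
        · rw [if_neg h', if_pos (by omega), neg_neg]
    refine ⟨f', hf's, ?_, ?_⟩
    · refine index_le_of_core c hcomm hc2 (f k0) (hf k0) (hidx k0) f' hf's ?_
      intro n hn g
      change (if 0 < t (g * n) then (1 : ℤ) else -1) = (if 0 < t g then 1 else -1)
      rw [htr g n hn]
    · intro g
      change _ = t g
      have h1 : av D f' g = f' g * nD D := by
        unfold av nD
        rw [Finset.mul_sum]
        refine Finset.sum_congr rfl fun d _ => ?_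
        by_cases hd : d ∈ D
        · rw [if_pos hd, if_pos hd, mul_one]
          change (if 0 < t (d * g) then (1 : ℤ) else -1) = (if 0 < t g then 1 else -1)
          rw [htl g d hd]
        · rw [if_neg hd, if_neg hd, mul_zero]
      rw [h1]
      change (if 0 < t g then (1 : ℤ) else -1) * nD D = t g
      rcases hval g with h2 | h2 | h2
      · exact absurd h2 (hz g)
      · rw [if_pos (by omega), one_mul, h2]
      · rw [if_neg (by omega), neg_one_mul, h2]

end family

end

end Pool.Agent.R937.CS
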